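import Pool.Agent.Helper77.K4.Lie

/-!
# Theorem K4R, module LA0: invariant forms on sections of dimension two
-/

set_option autoImplicit false

open Set Module
open scoped commutatorElement

namespace Pool.Agent.Helper14.K4

open Pool.Agent.Helper77.K4

section group

variable {G : Type*} [Group G]

/-- A subgroup with at most two cosets has finite index. -/
theorem finiteIndex_of_two {H : Subgroup G} (g₀ : G) (h : ∀ g, g ∈ H ∨ g₀⁻¹ * g ∈ H) :
    H.FiniteIndex := by
  rw [Subgroup.finiteIndex_iff_finite_quotient]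
  refine Finite.of_surjective (fun b : Bool => if b then ((1 : G) : G ⧸ H) else (g₀ : G ⧸ H)) ?_
  intro q
  induction q using QuotientGroup.induction_on with
  | H g =>
    rcases h g with h1 | h1
    · refine ⟨true, ?_⟩
      simp only [if_true]
      rw [QuotientGroup.eq]
      simpa using h1
    · refine ⟨false, ?_⟩
      simp only [Bool.false_eq_true, if_false]
      rw [QuotientGroup.eq]
      exact h1

end group

section forms

/-- Two matrices (given by entries) which are in the same way compatible with a symmetric form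
commute. -/
theorem comm_aux {A b C t q r t' q' r' : ℝ} (hS : A ≠ 0 ∨ b ≠ 0 ∨ C ≠ 0)
    (h1 : A * t + 2 * b * q = 0) (h2 : A * r + C * q = 0) (h3 : C * t - 2 * b * r = 0)
    (h1' : A * t' + 2 * b * q' = 0) (h2' : A * r' + C * q' = 0) (h3' : C * t' - 2 * b * r' = 0) :
    t * q' = t' * q ∧ t * r' = t' * r ∧ q * r' = q' * r := by
  rcases hS with hA | hb | hC
  · refine ⟨?_, ?_, ?_⟩
    · apply mul_left_cancel₀ hA
      linear_combination q' * h1 - q * h1'
    · apply mul_left_cancel₀ (pow_ne_zero 2 hA)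
      linear_combination A * r' * h1 - A * r * h1' - 2 * b * q * h2' + 2 * b * q' * h2
    · apply mul_left_cancel₀ hA
      linear_combination q * h2' - q' * h2
  · have hb2 : 2 * b ≠ 0 := mul_ne_zero two_ne_zero hb
    refine ⟨?_, ?_, ?_⟩
    · apply mul_left_cancel₀ hb2
      linear_combination t * h1' - t' * h1
    · apply mul_left_cancel₀ hb2
      linear_combination t' * h3 - t * h3'
    · apply mul_left_cancel₀ (pow_ne_zero 2 hb2)
      linear_combination 2 * b * r' * h1 - 2 * b * r * h1' + A * t * h3' - A * t' * h3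
  · refine ⟨?_, ?_, ?_⟩
    · apply mul_left_cancel₀ (pow_ne_zero 2 hC)
      linear_combination C * q' * h3 - C * q * h3' + 2 * b * r * h2' - 2 * b * r' * h2
    · apply mul_left_cancel₀ hC
      linear_combination r' * h3 - r * h3'
    · apply mul_left_cancel₀ hC
      linear_combination r' * h2 - r * h2'

/-- The linear conditions on the entries of a matrix which is a similitude of positive type. -/
theorem rel_aux {A b C p q r s d : ℝ} (hd : d = p * s - q * r) (hd0 : d ≠ 0)
    (e1 : A * p ^ 2 + 2 * b * p * q + C * q ^ 2 = d * A)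
    (e2 : A * p * r + b * (p * s + q * r) + C * q * s = d * b)
    (e3 : A * r ^ 2 + 2 * b * r * s + C * s ^ 2 = d * C) :
    A * (p - s) + 2 * b * q = 0 ∧ A * r + C * q = 0 ∧ C * (p - s) - 2 * b * r = 0 := by
  refine ⟨?_, ?_, ?_⟩
  · apply mul_left_cancel₀ hd0
    linear_combination s * e1 - q * e2 + (A * p + b * q) * hd
  · apply mul_left_cancel₀ hd0
    linear_combination s * e2 - q * e3 + (A * r + b * s) * hd
  · apply mul_left_cancel₀ hd0
    linear_combination r * e2 - p * e3 - (b * r + C * s) * hd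

end forms

section LA0

variable {V G : Type*} [NormedAddCommGroup V] [NormedSpace ℝ V] [FiniteDimensional ℝ V] [Group G]
  {a : G →* (V ≃ᵃ[ℝ] V)}

theorem alpha {W₁ W W₂ : Submodule ℝ V} (h₁ : LInv a ⊤ W₁) (h : LInv a ⊤ W) (h₂ : LInv a ⊤ W₂)
    (hle : W₁ ≤ W) (hle' : W ≤ W₂) (hd : finrank ℝ W₂ = finrank ℝ W₁ + 2) (hne : W ≠ W₁)
    (hne' : W ≠ W₂) : VSec a W₁ W₂ := by
  have h3 := Submodule.finrank_lt_finrank_of_lt (lt_of_le_of_ne hle (Ne.symm hne))
  have h4 := Submodule.finrank_lt_finrank_of_lt (lt_of_le_of_ne hle' hne')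
  exact (VSec.of_finrank h₁ h hle (by omega)).trans h₂ (VSec.of_finrank h h₂ hle' (by omega))

/-- A section of dimension two with a semi-invariant symmetric form which is not zero. -/
theorem beta {W₁ W₂ : Submodule ℝ V} (h₁ : LInv a ⊤ W₁) (h₂ : LInv a ⊤ W₂) (hle : W₁ ≤ W₂)
    (hd : finrank ℝ W₂ = finrank ℝ W₁ + 2) (B : W₂ →ₗ[ℝ] W₂ →ₗ[ℝ] ℝ)
    (hsymm : ∀ x y, B x y = B y x) (hker : ∀ x y : W₂, (x : V) ∈ W₁ → B x y = 0)
    (hne : B ≠ 0)
    (hinv : ∀ g : G, ∃ c : ℝ, ∀ x y : W₂,
      B ⟨(a g).linear x, h₂ g (Subgroup.mem_top _) x x.2⟩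
        ⟨(a g).linear y, h₂ g (Subgroup.mem_top _) y y.2⟩ = c * B x y) : VSec a W₁ W₂ := by
  classical
  -- the action on `W₂`
  set act : G → W₂ → W₂ := fun g x => ⟨(a g).linear x, h₂ g (Subgroup.mem_top _) x x.2⟩ with hact
  have act_add : ∀ g x y, act g (x + y) = act g x + act g y := fun g x y =>
    Subtype.ext (map_add (a g).linear (x : V) y)
  have act_smul : ∀ g (c : ℝ) x, act g (c • x) = c • act g x := fun g c x =>
    Subtype.ext (map_smul (a g).linear c (x : V))
  have act_mul : ∀ g h x, act (g * h) x = act g (act h x) := fun g h x =>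
    Subtype.ext (lin_mul g h (x : V))
  have act_inv : ∀ g x, act g⁻¹ (act g x) = x := fun g x => Subtype.ext (lin_inv g (x : V))
  have act_inv' : ∀ g x, act g (act g⁻¹ x) = x := fun g x => Subtype.ext (lin_inv' g (x : V))
  have act_W : ∀ g (x : W₂), (x : V) ∈ W₁ → (act g x : V) ∈ W₁ := fun g x hx =>
    h₁ g (Subgroup.mem_top _) x hx
  choose c hc using hinv
  have hc' : ∀ g x y, B (act g x) (act g y) = c g * B x y := hc
  -- the kernel of the form
  set R : Submodule ℝ V := (LinearMap.ker B).map W₂.subtype with hR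
  have hmemR : ∀ x : W₂, (x : V) ∈ R ↔ B x = 0 := by
    intro x
    rw [hR]
    constructor
    · rintro ⟨y, hy, hyx⟩
      have : y = x := Subtype.ext hyx
      rw [← this]
      exact hy
    · intro hx
      exact ⟨x, hx, rfl⟩
  have hRle : R ≤ W₂ := by
    rw [hR]
    rintro _ ⟨y, _, rfl⟩
    exact y.2
  have hRinv : LInv a ⊤ R := by
    intro g _ v hv
    have hv2 : v ∈ W₂ := hRle hv
    have h3 : B ⟨v, hv2⟩ = 0 := (hmemR ⟨v, hv2⟩).1 hv
    refine (hmemR (act g ⟨v, hv2⟩)).2 ?_
    ext y
    rw [← act_inv' g y, hc', h3, LinearMap.zero_apply, mul_zero, LinearMap.zero_apply]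
  have hW₁R : W₁ ≤ R := by
    intro v hv
    refine (hmemR ⟨v, hle hv⟩).2 ?_
    ext y
    rw [hker _ y hv, LinearMap.zero_apply]
  have hRne : R ≠ W₂ := by
    intro h
    apply hne
    ext x y
    have h3 : (x : V) ∈ R := by
      rw [h]
      exact x.2
    rw [(hmemR x).1 h3]
    rfl
  by_cases hRW : R = W₁
  swap
  · exact alpha h₁ hRinv h₂ hW₁R hRle hd hRW hRne
  -- the nondegenerate case
  have hnd : ∀ x : W₂, B x = 0 → (x : V) ∈ W₁ := by
    intro x hx
    rw [← hRW]
    exact (hmemR x).2 hx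
  -- a basis modulo `W₁`
  obtain ⟨u₀, hu₀, hu₀W⟩ : ∃ u ∈ W₂, u ∉ W₁ := by
    by_contra h
    push Not at h
    have h3 := Submodule.finrank_mono (show W₂ ≤ W₁ from h)
    omega
  have hspan₁ : finrank ℝ (W₁ ⊔ Submodule.span ℝ {u₀} : Submodule ℝ V) ≤ finrank ℝ W₁ + 1 :=
    (Submodule.finrank_add_le_finrank_add_finrank W₁ _).trans
      (Nat.add_le_add_left (finrank_span_singleton (K := ℝ) (v := u₀)
        (fun h => hu₀W (h ▸ W₁.zero_mem))).le _)
  obtain ⟨v₀, hv₀, hv₀W⟩ : ∃ v ∈ W₂, v ∉ W₁ ⊔ Submodule.span ℝ {u₀} := by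
    by_contra h
    push Not at h
    have h3 := Submodule.finrank_mono (show W₂ ≤ W₁ ⊔ Submodule.span ℝ {u₀} from h)
    omega
  have hspan₂ : W₁ ⊔ Submodule.span ℝ {u₀} ⊔ Submodule.span ℝ {v₀} = W₂ := by
    refine Submodule.eq_of_le_of_finrank_le (sup_le (sup_le hle
      ((Submodule.span_singleton_le_iff_mem _ _).2 hu₀))
      ((Submodule.span_singleton_le_iff_mem _ _).2 hv₀)) ?_
    have h4 : W₁ < W₁ ⊔ Submodule.span ℝ {u₀} := by
      refine lt_of_le_of_ne le_sup_left fun h5 => hu₀W ?_
      rw [h5]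
      exact Submodule.mem_sup_right (Submodule.mem_span_singleton_self _)
    have h5 : W₁ ⊔ Submodule.span ℝ {u₀} <
        W₁ ⊔ Submodule.span ℝ {u₀} ⊔ Submodule.span ℝ {v₀} := by
      refine lt_of_le_of_ne le_sup_left fun h6 => hv₀W ?_
      rw [h6]
      exact Submodule.mem_sup_right (Submodule.mem_span_singleton_self _)
    have h6 := Submodule.finrank_lt_finrank_of_lt h4
    have h7 := Submodule.finrank_lt_finrank_of_lt h5
    omega
  set u : W₂ := ⟨u₀, hu₀⟩ with hu
  set v : W₂ := ⟨v₀, hv₀⟩ with hv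
  have hcoord : ∀ x : W₂, ∃ α β : ℝ, ((x - (α • u + β • v) : W₂) : V) ∈ W₁ := by
    intro x
    have h3 : (x : V) ∈ W₁ ⊔ Submodule.span ℝ {u₀} ⊔ Submodule.span ℝ {v₀} := by
      rw [hspan₂]
      exact x.2
    obtain ⟨y, hy, z, hz, hyz⟩ := Submodule.mem_sup.1 h3
    obtain ⟨y', hy', z', hz', rfl⟩ := Submodule.mem_sup.1 hy
    obtain ⟨α, rfl⟩ := Submodule.mem_span_singleton.1 hz'
    obtain ⟨β, rfl⟩ := Submodule.mem_span_singleton.1 hz
    refine ⟨α, β, ?_⟩
    have h4 : ((x - (α • u + β • v) : W₂) : V) = y' := by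
      rw [Submodule.coe_sub, Submodule.coe_add, Submodule.coe_smul, Submodule.coe_smul, ← hyz, hu,
        hv]
      simp only
      abel
    rw [h4]
    exact hy'
  have hindep : ∀ α β : ℝ, ((α • u + β • v : W₂) : V) ∈ W₁ → α = 0 ∧ β = 0 := by
    intro α β h
    rw [Submodule.coe_add, Submodule.coe_smul, Submodule.coe_smul, hu, hv] at h
    simp only at h
    have hβ : β = 0 := by
      by_contra hβ
      apply hv₀W
      have h3 : v₀ = β⁻¹ • (α • u₀ + β • v₀) - (β⁻¹ * α) • u₀ := by
        rw [smul_add, smul_smul, smul_smul, inv_mul_cancel₀ hβ, one_smul]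
        abel
      rw [h3]
      exact Submodule.sub_mem _ (Submodule.mem_sup_left (W₁.smul_mem _ h))
        (Submodule.mem_sup_right (Submodule.smul_mem _ _ (Submodule.mem_span_singleton_self _)))
    refine ⟨?_, hβ⟩
    by_contra hα
    apply hu₀W
    rw [hβ, zero_smul, add_zero] at h
    have h3 := W₁.smul_mem α⁻¹ h
    rwa [smul_smul, inv_mul_cancel₀ hα, one_smul] at h3
  set A : ℝ := B u u with hA
  set b : ℝ := B u v with hb
  set C : ℝ := B v v with hC
  have hbv : B v u = b := hsymm v u
  have hΔ : A * C - b ^ 2 ≠ 0 := by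
    intro h
    obtain ⟨α, β, hαβ, h3, h4⟩ : ∃ α β : ℝ, (α ≠ 0 ∨ β ≠ 0) ∧ α * A + β * b = 0 ∧
        α * b + β * C = 0 := by
      by_cases hA0 : A = 0
      · have hb0 : b = 0 := by
          rw [hA0, zero_mul, zero_sub, neg_eq_zero] at h
          exact pow_eq_zero_iff two_ne_zero |>.1 h
        refine ⟨1, 0, Or.inl one_ne_zero, ?_, ?_⟩
        · rw [hA0, hb0]
          ring
        · rw [hb0]
          ring
      · refine ⟨b, -A, Or.inr (neg_ne_zero.2 hA0), by ring, ?_⟩
        linear_combination -h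
    have h5 : B (α • u + β • v) = 0 := by
      ext y
      obtain ⟨γ, δ, hy⟩ := hcoord y
      have h6 : B (α • u + β • v) (y - (γ • u + δ • v)) = 0 := by
        rw [hsymm]
        exact hker _ _ hy
      rw [map_sub, sub_eq_zero] at h6
      rw [h6]
      simp only [map_add, map_smul, LinearMap.add_apply, LinearMap.smul_apply, smul_eq_mul,
        LinearMap.zero_apply, hbv]
      linear_combination γ * h3 + δ * h4
    have h6 := hindep α β (hnd _ h5)
    rcases hαβ with h7 | h7
    · exact h7 h6.1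
    · exact h7 h6.2
  -- the coordinates
  set φ : W₂ → ℝ := fun x => (C * B u x - b * B v x) / (A * C - b ^ 2) with hφ
  set ψ : W₂ → ℝ := fun x => (A * B v x - b * B u x) / (A * C - b ^ 2) with hψ
  have hφψ : ∀ (x : W₂) (α β : ℝ), ((x - (α • u + β • v) : W₂) : V) ∈ W₁ →
      φ x = α ∧ ψ x = β := by
    intro x α β h
    have h3 : B u x = α * A + β * b := by
      have h6 : B u (x - (α • u + β • v)) = 0 := by
        rw [hsymm]
        exact hker _ _ h
      rw [map_sub, sub_eq_zero] at h6
      rw [h6]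
      simp only [map_add, map_smul, smul_eq_mul]
      rw [← hA, ← hb]
    have h4 : B v x = α * b + β * C := by
      have h6 : B v (x - (α • u + β • v)) = 0 := by
        rw [hsymm]
        exact hker _ _ h
      rw [map_sub, sub_eq_zero] at h6
      rw [h6]
      simp only [map_add, map_smul, smul_eq_mul, hbv]
      rw [← hC]
    constructor
    · simp only [hφ]
      rw [h3, h4, div_eq_iff hΔ]
      ring
    · simp only [hψ]
      rw [h3, h4, div_eq_iff hΔ]
      ring
  have hrep : ∀ x : W₂, ((x - (φ x • u + ψ x • v) : W₂) : V) ∈ W₁ := by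
    intro x
    obtain ⟨α, β, h⟩ := hcoord x
    obtain ⟨h3, h4⟩ := hφψ x α β h
    rw [h3, h4]
    exact h
  -- entries
  set p : G → ℝ := fun g => φ (act g u) with hp
  set q : G → ℝ := fun g => ψ (act g u) with hq
  set r : G → ℝ := fun g => φ (act g v) with hr
  set s : G → ℝ := fun g => ψ (act g v) with hs
  have repu : ∀ g, ((act g u - (p g • u + q g • v) : W₂) : V) ∈ W₁ := fun g => hrep _
  have repv : ∀ g, ((act g v - (r g • u + s g • v) : W₂) : V) ∈ W₁ := fun g => hrep _
  have mulu : ∀ g h, p (g * h) = p h * p g + q h * r g ∧ q (g * h) = p h * q g + q h * s g := by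
    intro g h
    refine hφψ _ _ _ ?_
    rw [act_mul]
    have h3 := act_W g _ (repu h)
    have h4 := W₁.add_mem (W₁.add_mem h3 (W₁.smul_mem (p h) (repu g)))
      (W₁.smul_mem (q h) (repv g))
    rw [← Submodule.coe_smul, ← Submodule.coe_smul, ← Submodule.coe_add, ← Submodule.coe_add] at h4
    convert h4 using 2
    have h5 : act g (act h u - (p h • u + q h • v)) = act g (act h u) -
        (p h • act g u + q h • act g v) := by
      have h6 := act_add g (act h u - (p h • u + q h • v)) (p h • u + q h • v)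
      rw [sub_add_cancel, act_add, act_smul, act_smul] at h6
      exact eq_sub_of_add_eq h6.symm
    rw [h5]
    module
  have mulv : ∀ g h, r (g * h) = r h * p g + s h * r g ∧ s (g * h) = r h * q g + s h * s g := by
    intro g h
    refine hφψ _ _ _ ?_
    rw [act_mul]
    have h3 := act_W g _ (repv h)
    have h4 := W₁.add_mem (W₁.add_mem h3 (W₁.smul_mem (r h) (repu g)))
      (W₁.smul_mem (s h) (repv g))
    rw [← Submodule.coe_smul, ← Submodule.coe_smul, ← Submodule.coe_add, ← Submodule.coe_add] at h4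
    convert h4 using 2
    have h5 : act g (act h v - (r h • u + s h • v)) = act g (act h v) -
        (r h • act g u + s h • act g v) := by
      have h6 := act_add g (act h v - (r h • u + s h • v)) (r h • u + s h • v)
      rw [sub_add_cancel, act_add, act_smul, act_smul] at h6
      exact eq_sub_of_add_eq h6.symm
    rw [h5]
    module
  have act_one : ∀ x, act 1 x = x := by
    intro x
    have := act_inv 1 x
    rwa [inv_one, ← act_mul, one_mul] at this
  have oneu : p 1 = 1 ∧ q 1 = 0 := by
    refine hφψ _ _ _ ?_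
    rw [act_one, one_smul, zero_smul, add_zero, sub_self]
    exact W₁.zero_mem
  have onev : r 1 = 0 ∧ s 1 = 1 := by
    refine hφψ _ _ _ ?_
    rw [act_one, one_smul, zero_smul, zero_add, sub_self]
    exact W₁.zero_mem
  -- the multiplier
  have hx₀ : ∃ x y : W₂, B x y ≠ 0 := by
    by_contra h
    push Not at h
    exact hne (LinearMap.ext fun x => LinearMap.ext fun y => h x y)
  obtain ⟨x₀, y₀, hxy⟩ := hx₀
  have cmul : ∀ g h, c (g * h) = c g * c h := by
    intro g h
    apply mul_right_cancel₀ hxy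
    rw [← hc', act_mul, act_mul, hc', hc', mul_assoc]
  have cone : c 1 = 1 := by
    apply mul_right_cancel₀ hxy
    rw [← hc', act_one, act_one, one_mul]
  have cne : ∀ g, c g ≠ 0 := by
    intro g h
    have h3 := cmul g g⁻¹
    rw [mul_inv_cancel, cone, h, zero_mul] at h3
    exact one_ne_zero h3
  set f : G →* ℝ :=
    { toFun := fun g => (p g * s g - q g * r g) * (c g)⁻¹
      map_one' := by
        rw [oneu.1, oneu.2, onev.1, onev.2, cone]
        norm_num
      map_mul' := by
        intro g h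
        rw [(mulu g h).1, (mulu g h).2, (mulv g h).1, (mulv g h).2, cmul, mul_inv]
        ring } with hf
  have hfg : ∀ g, f g = (p g * s g - q g * r g) * (c g)⁻¹ := fun g => rfl
  -- the Gram relations
  have gram : ∀ g, A * p g ^ 2 + 2 * b * p g * q g + C * q g ^ 2 = c g * A ∧
      A * p g * r g + b * (p g * s g + q g * r g) + C * q g * s g = c g * b ∧
      A * r g ^ 2 + 2 * b * r g * s g + C * s g ^ 2 = c g * C := by
    intro g
    have key : ∀ x y x' y' : W₂, ((x - x' : W₂) : V) ∈ W₁ → ((y - y' : W₂) : V) ∈ W₁ →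
        B x y = B x' y' := by
      intro x y x' y' hx hy
      have h3 : B (x - x') y = 0 := hker _ _ hx
      have h4 : B x' (y - y') = 0 := by
        rw [hsymm]
        exact hker _ _ hy
      rw [map_sub, LinearMap.sub_apply, sub_eq_zero] at h3
      rw [map_sub, sub_eq_zero] at h4
      rw [h3, h4]
    refine ⟨?_, ?_, ?_⟩
    · rw [hA, ← hc', key _ _ _ _ (repu g) (repu g)]
      simp only [map_add, map_smul, LinearMap.add_apply, LinearMap.smul_apply, smul_eq_mul, hbv]
      rw [← hA, ← hb, ← hC]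
      ring
    · rw [hb, ← hc', key _ _ _ _ (repu g) (repv g)]
      simp only [map_add, map_smul, LinearMap.add_apply, LinearMap.smul_apply, smul_eq_mul, hbv]
      rw [← hA, ← hb, ← hC]
      ring
    · rw [hC, ← hc', key _ _ _ _ (repv g) (repv g)]
      simp only [map_add, map_smul, LinearMap.add_apply, LinearMap.smul_apply, smul_eq_mul, hbv]
      rw [← hA, ← hb, ← hC]
      ring
  have hsq : ∀ g, f g = 1 ∨ f g = -1 := by
    intro g
    obtain ⟨e1, e2, e3⟩ := gram g
    have h3 : (p g * s g - q g * r g) ^ 2 = c g ^ 2 := by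
      apply mul_right_cancel₀ hΔ
      linear_combination (A * r g ^ 2 + 2 * b * r g * s g + C * s g ^ 2) * e1 + c g * A * e3 -
        (A * p g * r g + b * (p g * s g + q g * r g) + C * q g * s g + c g * b) * e2
    rcases sq_eq_sq_iff_eq_or_eq_neg.1 h3 with h4 | h4
    · left
      rw [hfg, h4, mul_inv_cancel₀ (cne g)]
    · right
      rw [hfg, h4, neg_mul, mul_inv_cancel₀ (cne g)]
  have hH : f.ker.FiniteIndex := by
    by_cases h : ∃ g₀, f g₀ = -1
    · obtain ⟨g₀, hg₀⟩ := h
      refine finiteIndex_of_two g₀ fun g => ?_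
      rcases hsq g with h3 | h3
      · exact Or.inl (MonoidHom.mem_ker.2 h3)
      · refine Or.inr (MonoidHom.mem_ker.2 ?_)
        have h4 : f g₀⁻¹ * f g₀ = 1 := by rw [← map_mul, inv_mul_cancel, map_one]
        rw [map_mul, h3, ← hg₀, h4]
    · push Not at h
      refine finiteIndex_of_two 1 fun g => Or.inl (MonoidHom.mem_ker.2 ?_)
      exact (hsq g).resolve_right (h g)
  refine ⟨f.ker, hH, 1, ?_⟩
  have hS : A ≠ 0 ∨ b ≠ 0 ∨ C ≠ 0 := by
    by_contra h
    push Not at h
    apply hΔ
    rw [h.1, h.2.1]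
    ring
  have hrel : ∀ g ∈ f.ker, A * (p g - s g) + 2 * b * q g = 0 ∧ A * r g + C * q g = 0 ∧
      C * (p g - s g) - 2 * b * r g = 0 := by
    intro g hg
    obtain ⟨e1, e2, e3⟩ := gram g
    have h3 : c g = p g * s g - q g * r g := by
      have h4 : f g = 1 := MonoidHom.mem_ker.1 hg
      rw [hfg, mul_inv_eq_one₀ (cne g)] at h4
      exact h4.symm
    exact rel_aux h3 (cne g) e1 e2 e3
  have hcomm : ∀ x ∈ f.ker, ∀ y ∈ f.ker, ∀ z : W₂,
      ((act (x * y) z - act (y * x) z : W₂) : V) ∈ W₁ := by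
    intro x hx y hy z
    obtain ⟨a1, a2, a3⟩ := hrel x hx
    obtain ⟨b1, b2, b3⟩ := hrel y hy
    obtain ⟨m1, m2, m3⟩ := comm_aux hS a1 a2 a3 b1 b2 b3
    have hu' : ((act (x * y) u - act (y * x) u : W₂) : V) ∈ W₁ := by
      have h3 := W₁.sub_mem (repu (x * y)) (repu (y * x))
      rw [(mulu x y).1, (mulu x y).2, (mulu y x).1, (mulu y x).2, ← Submodule.coe_sub] at h3
      have e1 : p y * p x + q y * r x = p x * p y + q x * r y := by linear_combination -m3
      have e2 : p y * q x + q y * s x = p x * q y + q x * s y := by linear_combination -m1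
      rw [e1, e2, sub_sub_sub_cancel_right] at h3
      exact h3
    have hv' : ((act (x * y) v - act (y * x) v : W₂) : V) ∈ W₁ := by
      have h3 := W₁.sub_mem (repv (x * y)) (repv (y * x))
      rw [(mulv x y).1, (mulv x y).2, (mulv y x).1, (mulv y x).2, ← Submodule.coe_sub] at h3
      have e1 : r y * p x + s y * r x = r x * p y + s x * r y := by linear_combination m2
      have e2 : r y * q x + s y * s x = r x * q y + s x * s y := by linear_combination m3
      rw [e1, e2, sub_sub_sub_cancel_right] at h3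
      exact h3
    have hz := hrep z
    have h3 := W₁.sub_mem (act_W (x * y) _ hz) (act_W (y * x) _ hz)
    have h4 := W₁.add_mem (W₁.add_mem h3 (W₁.smul_mem (φ z) hu')) (W₁.smul_mem (ψ z) hv')
    rw [← Submodule.coe_smul, ← Submodule.coe_smul, ← Submodule.coe_sub, ← Submodule.coe_add,
      ← Submodule.coe_add] at h4
    convert h4 using 2
    have h5 : ∀ g, act g (z - (φ z • u + ψ z • v)) = act g z -
        (φ z • act g u + ψ z • act g v) := by
      intro g
      have h6 := act_add g (z - (φ z • u + ψ z • v)) (φ z • u + ψ z • v)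
      rw [sub_add_cancel, act_add, act_smul, act_smul] at h6
      exact eq_sub_of_add_eq h6.symm
    rw [h5, h5]
    module
  have hle3 : dser f.ker 1 ≤ kerSec a ⊤ W₁ h₂ := by
    change ⁅_, _⁆ ≤ _
    rw [Subgroup.commutator_le]
    intro x hx y hy
    refine ⟨Subgroup.mem_top _, fun z hz => ?_⟩
    have h4 : (a ⁅x, y⁆).linear z - z =
        (a (x * y)).linear ((a (y * x)⁻¹).linear z) -
        (a (y * x)).linear ((a (y * x)⁻¹).linear z) := by
      rw [lin_inv', ← lin_mul]
      congr 3
      rw [commutatorElement_def, mul_inv_rev, mul_assoc, mul_assoc, ← mul_assoc x y]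
    rw [h4]
    exact hcomm x hx y hy ⟨_, h₂ _ (Subgroup.mem_top _) z hz⟩
  exact fun g hg => (hle3 hg).2

end LA0

section beta'

variable {G : Type*} [Group G] {E : Type*} [NormedAddCommGroup E] [NormedSpace ℝ E]

theorem rho_mul (ρ : G →* (E ≃ₗ[ℝ] E)) (g h : G) (x : E) : ρ (g * h) x = ρ g (ρ h x) := by
  rw [map_mul]
  rfl

theorem rho_inv (ρ : G →* (E ≃ₗ[ℝ] E)) (g : G) (x : E) : ρ g⁻¹ (ρ g x) = x := by
  rw [← rho_mul, inv_mul_cancel, map_one]
  rfl

theorem rho_inv' (ρ : G →* (E ≃ₗ[ℝ] E)) (g : G) (x : E) : ρ g (ρ g⁻¹ x) = x := by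
  rw [← rho_mul, mul_inv_cancel, map_one]
  rfl

/-- The definite case: the action is finite. -/
theorem finiteIndex_of_pos [FiniteDimensional ℝ E] (ρ : G →* (E ≃ₗ[ℝ] E)) (L : Submodule ℤ E) [DiscreteTopology L]
    [IsZLattice ℝ L] (hL : ∀ g, ∀ l ∈ L, ρ g l ∈ L) (Q : E →ₗ[ℝ] E →ₗ[ℝ] ℝ)
    (hpos : ∀ x, x ≠ 0 → 0 < Q x x)
    (hinv : ∀ g, ∃ c : ℝ, ∀ x y, Q (ρ g x) (ρ g y) = c * Q x y) :
    ρ.ker.FiniteIndex := by
  classical
  -- bounded sets of the form are finite in the lattice
  have hcont : Continuous fun x : E => Q x x := by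
    have h1 : Continuous fun x : E => (LinearMap.toContinuousLinearMap (Q x) : E →L[ℝ] ℝ) := by
      exact LinearMap.continuous_of_finiteDimensional
        ((LinearMap.toContinuousLinearMap : (E →ₗ[ℝ] ℝ) ≃ₗ[ℝ] (E →L[ℝ] ℝ)).toLinearMap ∘ₗ Q)
    exact h1.clm_apply continuous_id
  have hfin : ∀ R : ℝ, {l : E | l ∈ L ∧ Q l l ≤ R}.Finite := by
    intro R
    have hb : Bornology.IsBounded {x : E | Q x x ≤ R} := by
      by_cases hE : Nontrivial E
      · obtain ⟨x₀, hx₀, hmin⟩ := (isCompact_sphere (0 : E) 1).exists_isMinOn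
          (NormedSpace.sphere_nonempty.2 zero_le_one) hcont.continuousOn
        set κ := Q x₀ x₀ with hκ
        have hκ0 : 0 < κ := hpos x₀ (by
          rintro rfl
          rw [mem_sphere_zero_iff_norm, norm_zero] at hx₀
          exact zero_ne_one hx₀)
        have hlow : ∀ x : E, κ * ‖x‖ ^ 2 ≤ Q x x := by
          intro x
          by_cases hx : x = 0
          · rw [hx, norm_zero, map_zero]
            norm_num
          · have hx' : 0 < ‖x‖ := norm_pos_iff.2 hx
            have h3 : κ ≤ Q (‖x‖⁻¹ • x) (‖x‖⁻¹ • x) := hmin (by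
              rw [mem_sphere_zero_iff_norm, norm_smul, norm_inv, norm_norm,
                inv_mul_cancel₀ hx'.ne'])
            rw [map_smul, map_smul, LinearMap.smul_apply, smul_eq_mul, smul_eq_mul] at h3
            have h4 : Q x x = ‖x‖ ^ 2 * (‖x‖⁻¹ * (‖x‖⁻¹ * Q x x)) := by
              field_simp
            rw [h4, mul_comm κ]
            exact mul_le_mul_of_nonneg_left h3 (by positivity)
        rw [isBounded_iff_forall_norm_le]
        refine ⟨1 + R / κ, fun x hx => ?_⟩
        have h3 : ‖x‖ ^ 2 ≤ R / κ := by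
          rw [le_div_iff₀ hκ0, mul_comm]
          exact (hlow x).trans hx
        nlinarith [sq_nonneg (‖x‖ - 1), norm_nonneg x]
      · have : Subsingleton E := not_nontrivial_iff_subsingleton.1 hE
        exact (Set.toFinite _).isBounded
    have h3 : Set.Finite ({x : E | Q x x ≤ R} ∩ (L : Set E)) := by
      have : DiscreteTopology L.toAddSubgroup := (inferInstance : DiscreteTopology L)
      exact Metric.finite_isBounded_inter_isClosed DiscreteTopology.isDiscrete hb
        (inferInstanceAs (IsClosed ((L.toAddSubgroup : AddSubgroup E) : Set E)))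
    exact h3.subset fun l hl => ⟨hl.2, hl.1⟩
  choose c hc using hinv
  by_cases hE : Nontrivial E
  swap
  · have : Subsingleton E := not_nontrivial_iff_subsingleton.1 hE
    have h3 : ρ.ker = ⊤ := by
      rw [eq_top_iff]
      intro g _
      rw [MonoidHom.mem_ker]
      ext x
      exact Subsingleton.elim _ _
    rw [h3]
    infer_instance
  obtain ⟨l, hl, hl0⟩ : ∃ l ∈ L, l ≠ 0 := by
    by_contra h
    push Not at h
    have h3 : Submodule.span ℝ (L : Set E) = ⊤ := IsZLattice.span_top
    have h4 : Submodule.span ℝ (L : Set E) = ⊥ := by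
      rw [Submodule.span_eq_bot]
      exact h
    exact bot_ne_top (h4.symm.trans h3)
  have hl1 : 0 < Q l l := hpos l hl0
  have hinj : ∀ g, ∀ x : E, x ≠ 0 → ρ g x ≠ 0 := fun g x hx h => hx ((ρ g).map_eq_zero_iff.1 h)
  have hcpos : ∀ g, 0 < c g := by
    intro g
    have h3 := hpos _ (hinj g l hl0)
    rw [hc] at h3
    exact (mul_pos_iff_of_pos_right hl1).1 h3
  have hpow : ∀ g, ∀ k : ℕ, Q (ρ (g ^ k) l) (ρ (g ^ k) l) = c g ^ k * Q l l := by
    intro g k
    induction k with
    | zero =>
      rw [pow_zero, map_one, pow_zero, one_mul]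
      rfl
    | succ k ih => rw [pow_succ', rho_mul, hc, ih, pow_succ', mul_assoc]
  have hge : ∀ g, 1 ≤ c g := by
    intro g
    by_contra h
    push Not at h
    have h3 : Function.Injective fun k : ℕ => ρ (g ^ k) l := by
      have h4 : StrictAnti fun k : ℕ => Q (ρ (g ^ k) l) (ρ (g ^ k) l) := by
        refine strictAnti_nat_of_succ_lt fun k => ?_
        rw [hpow, hpow, pow_succ, mul_assoc]
        refine mul_lt_mul_of_pos_left ?_ (pow_pos (hcpos g) k)
        exact mul_lt_of_lt_one_left hl1 h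
      intro j k hjk
      have h5 : ρ (g ^ j) l = ρ (g ^ k) l := hjk
      exact h4.injective (by simp only [h5])
    have h4 : Set.range (fun k : ℕ => ρ (g ^ k) l) ⊆ {l' : E | l' ∈ L ∧ Q l' l' ≤ Q l l} := by
      rintro _ ⟨k, rfl⟩
      refine ⟨hL _ l hl, ?_⟩
      simp only
      rw [hpow]
      exact mul_le_of_le_one_left hl1.le (pow_le_one₀ (hcpos g).le h.le)
    exact Set.infinite_range_of_injective h3 ((hfin _).subset h4)
  have hone : ∀ g, c g = 1 := by
    intro g
    have h3 : c g⁻¹ * c g = 1 := by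
      apply mul_right_cancel₀ hl1.ne'
      rw [mul_assoc, ← hc, ← hc, rho_inv, one_mul]
    have h4 := hge g
    have h5 := hge g⁻¹
    nlinarith
  set b := (Module.Free.chooseBasis ℤ L).ofZLatticeBasis ℝ L with hb
  have hbL : ∀ i, b i ∈ L := fun i => by
    rw [hb, Module.Basis.ofZLatticeBasis_apply]
    exact Subtype.coe_prop _
  have hfr : Finite ρ.range := by
    have hf : ∀ i, Finite {l' : E | l' ∈ L ∧ Q l' l' ≤ Q (b i) (b i)} := fun i => (hfin _).to_subtype
    refine Finite.of_injective (β := ∀ i, {l' : E | l' ∈ L ∧ Q l' l' ≤ Q (b i) (b i)})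
      (fun e i => ⟨(e : E ≃ₗ[ℝ] E) (b i), ?_⟩) ?_
    · obtain ⟨g, hg⟩ := e.2
      rw [← hg]
      refine ⟨hL g _ (hbL i), ?_⟩
      rw [hc, hone, one_mul]
    · intro e e' h
      apply Subtype.ext
      apply LinearEquiv.toLinearMap_injective
      refine b.ext fun i => ?_
      exact congrArg Subtype.val (congrFun h i)
  exact Subgroup.finiteIndex_ker ρ

/-- A semi-invariant symmetric form on a two-dimensional space with an invariant lattice: a subgroup
of finite index preserves a line. -/
theorem beta' [FiniteDimensional ℝ E]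
    (ρ : G →* (E ≃ₗ[ℝ] E)) (L : Submodule ℤ E) [DiscreteTopology L] [IsZLattice ℝ L]
    (hL : ∀ g, ∀ l ∈ L, ρ g l ∈ L) (hE : finrank ℝ E = 2) (Q : E →ₗ[ℝ] E →ₗ[ℝ] ℝ)
    (hsymm : ∀ x y, Q x y = Q y x) (hne : Q ≠ 0)
    (hinv : ∀ g, ∃ c : ℝ, ∀ x y, Q (ρ g x) (ρ g y) = c * Q x y) :
    ∃ H : Subgroup G, H.FiniteIndex ∧ ∃ ζ : E, ζ ≠ 0 ∧
      ∀ g ∈ H, ρ g ζ ∈ Submodule.span ℝ {ζ} := by
  classical
  by_cases hk : ∃ ζ, ζ ≠ 0 ∧ Q ζ = 0
  · -- the kernel is a line
    obtain ⟨ζ, hζ, hQ⟩ := hk
    refine ⟨⊤, inferInstance, ζ, hζ, fun g _ => ?_⟩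
    have hker : finrank ℝ (LinearMap.ker Q) ≤ 1 := by
      have h3 : LinearMap.ker Q ≠ ⊤ := fun h => hne (LinearMap.ker_eq_top.1 h)
      have h4 := Submodule.finrank_lt h3
      omega
    have h3 : LinearMap.ker Q = Submodule.span ℝ {ζ} := by
      refine (Submodule.eq_of_le_of_finrank_le ?_ ?_).symm
      · rw [Submodule.span_singleton_le_iff_mem]
        exact hQ
      · rw [finrank_span_singleton hζ]
        exact hker
    rw [← h3, LinearMap.mem_ker]
    ext y
    obtain ⟨c, hc⟩ := hinv g
    rw [← rho_inv' ρ g y, hc, hQ, LinearMap.zero_apply, mul_zero, LinearMap.zero_apply]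
  push Not at hk
  by_cases hi : ∃ ζ, ζ ≠ 0 ∧ Q ζ ζ = 0
  · -- isotropic lines
    obtain ⟨ζ, hζ, hQ⟩ := hi
    obtain ⟨η₀, hη₀⟩ : ∃ η, Q ζ η ≠ 0 := by
      by_contra h
      push Not at h
      exact hk ζ hζ (LinearMap.ext h)
    -- the second isotropic vector
    set η : E := η₀ - (Q η₀ η₀ / (2 * Q ζ η₀)) • ζ with hη
    have hζη : Q ζ η = Q ζ η₀ := by
      rw [hη, map_sub, map_smul, hQ, smul_zero, sub_zero]
    have hηη : Q η η = 0 := by
      rw [hη]
      simp only [map_sub, map_smul, LinearMap.sub_apply, LinearMap.smul_apply, smul_eq_mul, hQ,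
        hsymm η₀ ζ]
      field_simp
      ring
    have hspan : ∀ x, ∃ α β : ℝ, x = α • ζ + β • η := by
      intro x
      have hlin : LinearIndependent ℝ ![ζ, η] := by
        rw [LinearIndependent.pair_iff]
        intro s t h
        have h3 := congrArg (Q ζ) h
        simp only [map_add, map_smul, smul_eq_mul, hQ, mul_zero, zero_add, map_zero] at h3
        have h4 : t = 0 := by
          rcases mul_eq_zero.1 h3 with h5 | h5
          · exact h5
          · exact absurd (hζη ▸ h5) hη₀
        rw [h4, zero_smul, add_zero] at h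
        exact ⟨(smul_eq_zero.1 h).resolve_right hζ, h4⟩
      have htop := hlin.span_eq_top_of_card_eq_finrank' (by rw [hE]; rfl)
      have hx : x ∈ Submodule.span ℝ (Set.range ![ζ, η]) := by
        rw [htop]
        exact Submodule.mem_top
      rw [Matrix.range_cons, Matrix.range_cons, Matrix.range_empty, Set.union_empty,
        Set.singleton_union, Submodule.mem_span_pair] at hx
      obtain ⟨α, β, h⟩ := hx
      exact ⟨α, β, h.symm⟩
    have hiso : ∀ x, Q x x = 0 → x ∈ Submodule.span ℝ {ζ} ∨ x ∈ Submodule.span ℝ {η} := by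
      intro x hx
      obtain ⟨α, β, rfl⟩ := hspan x
      simp only [map_add, map_smul, LinearMap.add_apply, LinearMap.smul_apply, smul_eq_mul, hQ,
        hηη, hsymm η ζ] at hx
      have h3 : α * β = 0 := by
        apply mul_right_cancel₀ (b := 2 * Q ζ η) (mul_ne_zero two_ne_zero (hζη ▸ hη₀))
        linear_combination hx
      rcases mul_eq_zero.1 h3 with h | h
      · right
        rw [h, zero_smul, zero_add]
        exact Submodule.smul_mem _ _ (Submodule.mem_span_singleton_self _)
      · left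
        rw [h, zero_smul, add_zero]
        exact Submodule.smul_mem _ _ (Submodule.mem_span_singleton_self _)
    have hpres : ∀ g x, Q x x = 0 → Q (ρ g x) (ρ g x) = 0 := by
      intro g x hx
      obtain ⟨c, hc⟩ := hinv g
      rw [hc, hx, mul_zero]
    set H : Subgroup G :=
      { carrier := {g | ρ g ζ ∈ Submodule.span ℝ {ζ}}
        one_mem' := by
          change ρ 1 ζ ∈ Submodule.span ℝ {ζ}
          rw [map_one]
          exact Submodule.mem_span_singleton_self _
        mul_mem' := by
          intro g h hg hh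
          change ρ (g * h) ζ ∈ Submodule.span ℝ {ζ}
          rw [rho_mul]
          obtain ⟨t, ht⟩ := Submodule.mem_span_singleton.1 hh
          rw [← ht, map_smul]
          exact Submodule.smul_mem _ _ hg
        inv_mem' := by
          intro g hg
          change ρ g⁻¹ ζ ∈ Submodule.span ℝ {ζ}
          obtain ⟨t, ht⟩ := Submodule.mem_span_singleton.1 hg
          have ht0 : t ≠ 0 := by
            rintro rfl
            rw [zero_smul] at ht
            exact hζ ((ρ g).map_eq_zero_iff.1 ht.symm)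
          have h3 := congrArg (fun z => t⁻¹ • ρ g⁻¹ z) ht
          simp only [map_smul, rho_inv, smul_smul, inv_mul_cancel₀ ht0, one_smul] at h3
          rw [h3]
          exact Submodule.smul_mem _ _ (Submodule.mem_span_singleton_self _) } with hH
    have hmem : ∀ g, g ∈ H ↔ ρ g ζ ∈ Submodule.span ℝ {ζ} := fun g => Iff.rfl
    refine ⟨H, ?_, ζ, hζ, fun g hg => hg⟩
    by_cases h : ∃ g₀, g₀ ∉ H
    · obtain ⟨g₀, hg₀⟩ := h
      refine finiteIndex_of_two g₀ fun g => ?_
      by_cases hg : g ∈ H
      · exact Or.inl hg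
      · right
        have h3 : ∀ g, g ∉ H → ∃ t : ℝ, t ≠ 0 ∧ ρ g ζ = t • η := by
          intro g hg
          rcases hiso _ (hpres g ζ hQ) with h4 | h4
          · exact absurd h4 hg
          · obtain ⟨t, ht⟩ := Submodule.mem_span_singleton.1 h4
            refine ⟨t, ?_, ht.symm⟩
            rintro rfl
            rw [zero_smul] at ht
            exact hζ ((ρ g).map_eq_zero_iff.1 ht.symm)
        obtain ⟨t, ht, h4⟩ := h3 g hg
        obtain ⟨t₀, ht₀, h5⟩ := h3 g₀ hg₀
        rw [hmem, rho_mul, h4, map_smul]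
        refine Submodule.smul_mem _ _ ?_
        have h6 : η = t₀⁻¹ • ρ g₀ ζ := by
          rw [h5, smul_smul, inv_mul_cancel₀ ht₀, one_smul]
        rw [h6, map_smul, rho_inv]
        exact Submodule.smul_mem _ _ (Submodule.mem_span_singleton_self _)
    · push Not at h
      exact finiteIndex_of_two 1 fun g => Or.inl (h g)
  push Not at hi
  -- the definite case
  have hdef : (∀ x, x ≠ 0 → 0 < Q x x) ∨ ∀ x, x ≠ 0 → 0 < (-Q) x x := by
    have hnontriv : Nontrivial E := by
      refine Module.nontrivial_of_finrank_pos (R := ℝ) ?_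
      omega
    obtain ⟨x₀, hx₀⟩ := exists_ne (0 : E)
    -- no change of sign: otherwise there is an isotropic vector
    have hsign : ∀ x y : E, x ≠ 0 → y ≠ 0 → 0 < Q x x → ¬ Q y y < 0 := by
      intro x y hx hy h3 h4
      -- the quadratic polynomial `t ↦ Q (x + t y) (x + t y)`
      set D := Q x y ^ 2 - Q x x * Q y y with hD
      have hD0 : 0 < D := by nlinarith [sq_nonneg (Q x y)]
      set t : ℝ := (-Q x y + Real.sqrt D) / Q y y with ht
      have h5 : Q (x + t • y) (x + t • y) = 0 := by
        simp only [map_add, map_smul, LinearMap.add_apply, LinearMap.smul_apply, smul_eq_mul,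
          hsymm y x]
        have h6 : Real.sqrt D ^ 2 = Q x y ^ 2 - Q x x * Q y y := Real.sq_sqrt hD0.le
        have h7 : t * Q y y = -Q x y + Real.sqrt D := by
          rw [ht, div_mul_cancel₀]
          exact h4.ne
        apply mul_left_cancel₀ h4.ne
        linear_combination h6 + (t * Q y y + Q x y + Real.sqrt D + 0) * h7
      have h6 : x + t • y = 0 := by
        by_contra h
        exact hi _ h h5
      have h7 : x = -(t • y) := eq_neg_of_add_eq_zero_left h6
      rw [h7] at h3
      simp only [map_neg, map_smul, LinearMap.neg_apply, LinearMap.smul_apply, smul_eq_mul] at h3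
      nlinarith [mul_self_nonneg t]
    rcases lt_or_gt_of_ne (hi x₀ hx₀) with h3 | h3
    · right
      intro x hx
      rw [LinearMap.neg_apply, LinearMap.neg_apply, neg_pos]
      rcases lt_or_gt_of_ne (hi x hx) with h4 | h4
      · exact h4
      · exact absurd h3 (hsign x x₀ hx hx₀ h4)
    · left
      intro x hx
      rcases lt_or_gt_of_ne (hi x hx) with h4 | h4
      · exact absurd h4 (hsign x₀ x hx₀ hx h3)
      · exact h4
  have hfin : ρ.ker.FiniteIndex := by
    rcases hdef with h | h
    · exact finiteIndex_of_pos ρ L hL Q h hinv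
    · refine finiteIndex_of_pos ρ L hL (-Q) h fun g => ?_
      obtain ⟨c, hc⟩ := hinv g
      refine ⟨c, fun x y => ?_⟩
      rw [LinearMap.neg_apply, LinearMap.neg_apply, hc, LinearMap.neg_apply, LinearMap.neg_apply,
        mul_neg]
  have hnontriv : Nontrivial E := by
    refine Module.nontrivial_of_finrank_pos (R := ℝ) ?_
    omega
  obtain ⟨x₀, hx₀⟩ := exists_ne (0 : E)
  refine ⟨ρ.ker, hfin, x₀, hx₀, fun g hg => ?_⟩
  rw [MonoidHom.mem_ker.1 hg]
  exact Submodule.mem_span_singleton_self _

end beta'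

end Pool.Agent.Helper14.K4
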