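import Pool.Agent.Helper14.K4.LA0

/-!
# Theorem K4R: general lemmas on `LieData`
-/

set_option autoImplicit false

open Set Module
open scoped commutatorElement

namespace Pool.Agent.Helper14.K4

open Pool.Agent.Helper77.K4

variable {V E G : Type*} [NormedAddCommGroup V] [NormedSpace ℝ V] [FiniteDimensional ℝ V]
    [NormedAddCommGroup E] [NormedSpace ℝ E] [FiniteDimensional ℝ E] [Group G]
  (D : LieData V E G)

/-- An invariant subspace `U` (under the fields) not contained in `W` contains a vector which is not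
in `W` and is mapped into `W` by all fields. -/
theorem exists_mod {W U : Submodule ℝ V} (hU : ∀ ξ, ∀ v ∈ U, D.X ξ v ∈ U) (h : ¬ U ≤ W) :
    ∃ v ∈ U, v ∉ W ∧ ∀ ξ, D.X ξ v ∈ W := by
  have key : ∀ n : ℕ, ∀ U : Submodule ℝ V, finrank ℝ U ≤ n → (∀ ξ, ∀ v ∈ U, D.X ξ v ∈ U) →
      ¬ U ≤ W → ∃ v ∈ U, v ∉ W ∧ ∀ ξ, D.X ξ v ∈ W := by
    intro n
    induction n with
    | zero =>
      intro U hn _ h
      have h3 : U = ⊥ := Submodule.finrank_eq_zero.1 (Nat.le_zero.1 hn)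
      rw [h3] at h
      exact absurd bot_le h
    | succ n ih =>
      intro U hn hU h
      by_cases hJ : D.J U ≤ W
      · obtain ⟨v, hv, hvW⟩ := SetLike.not_le_iff_exists.1 h
        exact ⟨v, hv, hvW, fun ξ => hJ (D.X_mem_J ξ hv)⟩
      · have hne : U ≠ ⊥ := by
          rintro rfl
          exact h bot_le
        have h3 := D.J_lt hU hne
        have h4 := Submodule.finrank_lt_finrank_of_lt h3
        obtain ⟨v, hv, hvW, hX⟩ := ih (D.J U) (by omega)
          (fun ξ v hv => D.X_mem_J ξ (h3.le hv)) hJ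
        exact ⟨v, h3.le hv, hvW, hX⟩
  exact key _ U le_rfl hU h

/-- A step of dimension at most one of a flag which is invariant under the fields. -/
theorem X_mem_of_succ {W' W : Submodule ℝ V} (hle : W' ≤ W) (hW : ∀ ξ, ∀ v ∈ W, D.X ξ v ∈ W)
    (hW' : ∀ ξ, ∀ v ∈ W', D.X ξ v ∈ W') (hd : finrank ℝ W ≤ finrank ℝ W' + 1) (ξ : E) {v : V}
    (hv : v ∈ W) : D.X ξ v ∈ W' := by
  by_cases h : W ≤ W'
  · exact h (hW ξ v hv)
  · obtain ⟨v₀, hv₀, hv₀W, hX⟩ := exists_mod D hW h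
    have h4 : W' < W' ⊔ Submodule.span ℝ {v₀} := by
      refine lt_of_le_of_ne le_sup_left fun h5 => hv₀W ?_
      rw [h5]
      exact Submodule.mem_sup_right (Submodule.mem_span_singleton_self _)
    have h5 := Submodule.finrank_lt_finrank_of_lt h4
    have h6 : W' ⊔ Submodule.span ℝ {v₀} = W :=
      Submodule.eq_of_le_of_finrank_le
        (sup_le hle ((Submodule.span_singleton_le_iff_mem _ _).2 hv₀)) (by omega)
    rw [← h6] at hv
    obtain ⟨y, hy, z, hz, rfl⟩ := Submodule.mem_sup.1 hv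
    obtain ⟨t, rfl⟩ := Submodule.mem_span_singleton.1 hz
    rw [map_add, map_smul]
    exact W'.add_mem (hW' ξ y hy) (W'.smul_mem _ (hX ξ))

/-- The form of a section of dimension two on which the fields act through a line. -/
theorem sec_beta {L H : Submodule ℝ V} (hL : LInv D.a ⊤ L) (hH : LInv D.a ⊤ H) (hle : L ≤ H)
    (hd : finrank ℝ H = finrank ℝ L + 2) {β : V} (hβ : β ≠ 0) (hLβ : L = Submodule.span ℝ {β})
    (hX : ∀ ξ, ∀ h ∈ H, D.X ξ h ∈ L) (hXL : ∀ ξ, ∀ l ∈ L, D.X ξ l = 0) (κ : E →ₗ[ℝ] V)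
    (hκ : ∀ ξ, κ ξ ∈ H) (honto : ∀ h ∈ H, ∃ ξ, h - κ ξ ∈ L)
    (hsymm : ∀ ξ η, D.X η (κ ξ) = D.X ξ (κ η))
    (hinv : ∀ g, ∃ c : ℝ, ∀ ξ, (D.a g).linear (κ ξ) - c • κ (D.ad g ξ) ∈ L)
    (hne : ∃ ξ, ∃ h ∈ H, D.X ξ h ≠ 0) : VSec D.a L H := by
  classical
  -- a linear functional which is `1` at `β`
  obtain ⟨ℓ, hℓ⟩ : ∃ ℓ : V →ₗ[ℝ] ℝ, ℓ β = 1 := by
    obtain ⟨f, hf⟩ := Submodule.exists_le_ker_of_notMem (p := (⊥ : Submodule ℝ V)) (v := β) (by
      rw [Submodule.mem_bot]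
      exact hβ)
    refine ⟨(f β)⁻¹ • f, ?_⟩
    rw [LinearMap.smul_apply, smul_eq_mul, inv_mul_cancel₀ hf.1]
  have hℓL : ∀ l ∈ L, l = ℓ l • β := by
    intro l hl
    rw [hLβ] at hl
    obtain ⟨t, rfl⟩ := Submodule.mem_span_singleton.1 hl
    rw [map_smul, hℓ, smul_eq_mul, mul_one]
  -- a section of `κ`
  obtain ⟨σ, hσ⟩ : ∃ σ : H →ₗ[ℝ] E, ∀ h : H, (h : V) - κ (σ h) ∈ L := by
    set f : E →ₗ[ℝ] V ⧸ L := L.mkQ ∘ₗ κ with hf
    set π : H →ₗ[ℝ] LinearMap.range f := (L.mkQ ∘ₗ H.subtype).codRestrict _ (by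
      intro h
      obtain ⟨ξ, hξ⟩ := honto h h.2
      refine ⟨ξ, ?_⟩
      rw [hf, LinearMap.comp_apply, LinearMap.comp_apply, Submodule.mkQ_apply, Submodule.mkQ_apply]
      exact ((Submodule.Quotient.eq L).2 hξ).symm) with hπ
    obtain ⟨s, hs⟩ := (LinearMap.rangeRestrict f).exists_rightInverse_of_surjective
      (LinearMap.range_rangeRestrict f)
    refine ⟨s ∘ₗ π, fun h => ?_⟩
    have h3 := LinearMap.congr_fun hs (π h)
    have h4 := congrArg Subtype.val h3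
    change L.mkQ (κ (s (π h))) = L.mkQ (h : V) at h4
    rw [Submodule.mkQ_apply, Submodule.mkQ_apply] at h4
    exact (Submodule.Quotient.eq L).1 h4.symm
  set B : H →ₗ[ℝ] H →ₗ[ℝ] ℝ :=
    LinearMap.mk₂ ℝ (fun h v => ℓ (D.X (σ h) v))
      (fun h h' v => by simp only [map_add, LinearMap.add_apply])
      (fun c h v => by simp only [map_smul, LinearMap.smul_apply])
      (fun h v v' => by simp only [Submodule.coe_add, map_add])
      (fun c h v => by simp only [Submodule.coe_smul, map_smul]) with hB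
  have hBapp : ∀ h v : H, B h v = ℓ (D.X (σ h) v) := fun h v => rfl
  have hBβ : ∀ h v : H, D.X (σ h) v = B h v • β := fun h v => hℓL _ (hX _ _ v.2)
  have hXσ : ∀ (ξ : E) (v : H), D.X ξ v = D.X ξ (κ (σ v)) := by
    intro ξ v
    have h3 := hXL ξ _ (hσ v)
    rwa [map_sub, sub_eq_zero] at h3
  have hkill : ∀ ζ, κ ζ ∈ L → ∀ v ∈ H, D.X ζ v = 0 := by
    intro ζ hζ v hv
    rw [hXσ ζ ⟨v, hv⟩, hsymm, hXL _ _ hζ]
  have hsB : ∀ h v, B h v = B v h := by
    intro h v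
    rw [hBapp, hBapp, hXσ, hXσ, hsymm]
  refine beta hL hH hle hd B hsB ?_ ?_ ?_
  · intro x y hx
    rw [hsB, hBapp, hXL _ _ hx, map_zero]
  · obtain ⟨ξ, h, hh, hξ⟩ := hne
    intro h0
    apply hξ
    have h3 : D.X ξ h = D.X (σ ⟨h, hh⟩) (κ ξ) := by
      rw [hXσ ξ ⟨h, hh⟩, hsymm]
    rw [h3]
    have h4 := hBβ ⟨h, hh⟩ ⟨κ ξ, hκ ξ⟩
    rw [h0] at h4
    simpa using h4
  · intro g
    obtain ⟨c, hc⟩ := hinv g
    obtain ⟨θ, hθ⟩ : ∃ θ : ℝ, (D.a g).linear β = θ • β := by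
      have h3 := hL g (Subgroup.mem_top _) β (by
        rw [hLβ]
        exact Submodule.mem_span_singleton_self _)
      rw [hLβ] at h3
      obtain ⟨θ, h4⟩ := Submodule.mem_span_singleton.1 h3
      exact ⟨θ, h4.symm⟩
    refine ⟨c * θ, fun x y => ?_⟩
    set x' : H := ⟨(D.a g).linear x, hH g (Subgroup.mem_top _) x x.2⟩ with hx'
    set y' : H := ⟨(D.a g).linear y, hH g (Subgroup.mem_top _) y y.2⟩ with hy'
    -- `σ x'` and `c • ad g (σ x)` differ by a field which kills `H`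
    have h3 : κ (σ x' - c • D.ad g (σ x)) ∈ L := by
      have h4 := hσ x'
      have h5 := hL g (Subgroup.mem_top _) _ (hσ x)
      have h6 := hc (σ x)
      have h7 : κ (σ x' - c • D.ad g (σ x)) =
          -((x' : V) - κ (σ x')) + (D.a g).linear ((x : V) - κ (σ x)) +
            ((D.a g).linear (κ (σ x)) - c • κ (D.ad g (σ x))) := by
        rw [map_sub, map_smul, map_sub]
        change _ = -((D.a g).linear (x : V) - κ (σ x')) + _ + _
        abel
      rw [h7]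
      exact L.add_mem (L.add_mem (L.neg_mem h4) h5) h6
    have h4 := hkill _ h3 (y' : V) y'.2
    rw [map_sub, LinearMap.sub_apply, sub_eq_zero, map_smul, LinearMap.smul_apply] at h4
    have h5 : D.X (D.ad g (σ x)) (y' : V) = (D.a g).linear (D.X (σ x) y) := D.X_ad g (σ x) y
    rw [h5, hBβ x y, map_smul, hθ, smul_smul, smul_smul] at h4
    rw [hBapp, h4, map_smul, hℓ, smul_eq_mul, mul_one]
    ring

end Pool.Agent.Helper14.K4
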