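import Pool.Agent.Helper14.K4.Gen
import Pool.Agent.Helper78.K4.LA1

/-!
# Theorem K4R, module LA2L: `dim E = 2`, `X` injective, an invariant line of fields
-/

set_option autoImplicit false

open Set Module
open scoped commutatorElement

namespace Pool.Agent.Helper14.K4

open Pool.Agent.Helper77.K4

variable {V E G : Type*} [NormedAddCommGroup V] [NormedSpace ℝ V] [FiniteDimensional ℝ V]
    [NormedAddCommGroup E] [NormedSpace ℝ E] [FiniteDimensional ℝ E] [Group G]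
  (D : LieData V E G)

/-- LA2L -/
theorem vsec_two_line (hV : finrank ℝ V = 4) (hE : finrank ℝ E = 2)
    (hX : ∀ ζ : E, D.X ζ = 0 → ζ = 0) {ζ : E} (hζ : ζ ≠ 0)
    (hl : ∀ g, D.ad g ζ ∈ Submodule.span ℝ {ζ}) : VSec D.a ⊥ ⊤ := by
  classical
  rcases D.r1 hV hζ hl with h | h | ⟨hr, hw⟩
  · exact h
  · exact absurd (hX ζ h) hζ
  set R : Submodule ℝ V := LinearMap.range (D.X ζ) with hR
  set K : Submodule ℝ V := LinearMap.ker (D.X ζ) with hK
  have hKd : finrank ℝ K = 3 := by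
    have h3 := LinearMap.finrank_range_add_finrank_ker (D.X ζ)
    rw [← hK, ← hR] at h3
    omega
  have hXad : ∀ g, ∃ c : ℝ, D.X (D.ad g ζ) = c • D.X ζ := by
    intro g
    obtain ⟨c, hc⟩ := Submodule.mem_span_singleton.1 (hl g)
    exact ⟨c, by rw [← hc, map_smul]⟩
  have hcne : ∀ g, ∀ c : ℝ, D.X (D.ad g ζ) = c • D.X ζ → c ≠ 0 := by
    rintro g c hc rfl
    rw [zero_smul] at hc
    exact hζ ((D.ad g).map_eq_zero_iff.1 (hX _ hc))
  have hRinv : LInv D.a ⊤ R := by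
    rintro g _ _ ⟨v, rfl⟩
    obtain ⟨c, hc⟩ := hXad g
    rw [← D.X_ad, hc]
    exact ⟨c • (D.a g).linear v, by rw [map_smul, LinearMap.smul_apply]⟩
  have hKinv : LInv D.a ⊤ K := by
    intro g _ v hv
    obtain ⟨c, hc⟩ := hXad g
    have h3 := D.X_ad g ζ v
    rw [hc, LinearMap.smul_apply, LinearMap.mem_ker.1 hv, map_zero] at h3
    exact LinearMap.mem_ker.2 ((smul_eq_zero.1 h3).resolve_left (hcne g c hc))
  -- the fields preserve `R` and `K`
  have hXR : ∀ ξ, ∀ v ∈ R, D.X ξ v ∈ R := by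
    rintro ξ _ ⟨v, rfl⟩
    exact ⟨D.X ξ v, D.comm ζ ξ v⟩
  have hXK : ∀ ξ, ∀ v ∈ K, D.X ξ v ∈ K := by
    intro ξ v hv
    rw [hK, LinearMap.mem_ker, D.comm, LinearMap.mem_ker.1 hv, map_zero]
  have hXR0 : ∀ ξ, ∀ v ∈ R, D.X ξ v = 0 := by
    intro ξ v hv
    have h3 := X_mem_of_succ D (W' := ⊥) (W := R) bot_le hXR (fun ξ v hv => by
      rw [(Submodule.mem_bot ℝ).1 hv, map_zero]
      exact Submodule.zero_mem _) (by rw [finrank_bot]; omega) ξ hv
    exact (Submodule.mem_bot ℝ).1 h3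
  have hRK : R ≤ K := fun v hv => LinearMap.mem_ker.2 (hXR0 ζ v hv)
  -- the vectors of `K` which are mapped into `R`
  set W : Submodule ℝ V := K ⊓ ⨅ ξ, R.comap (D.X ξ) with hW
  have hWmem : ∀ v, v ∈ W ↔ v ∈ K ∧ ∀ ξ, D.X ξ v ∈ R := by
    intro v
    rw [hW, Submodule.mem_inf, Submodule.mem_iInf]
    rfl
  have hWinv : LInv D.a ⊤ W := by
    intro g hg v hv
    rw [hWmem] at hv ⊢
    refine ⟨hKinv g hg v hv.1, fun ξ => ?_⟩
    rw [← D.ad_inv' g ξ, D.X_ad]
    exact hRinv g hg _ (hv.2 _)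
  have hRW : R ≤ W := by
    intro v hv
    rw [hWmem]
    refine ⟨hRK hv, fun ξ => ?_⟩
    rw [hXR0 ξ v hv]
    exact R.zero_mem
  have hWR : W ≠ R := by
    intro h3
    obtain ⟨v, hv, hvR, hX'⟩ := exists_mod D (W := R) (U := K) hXK (fun h4 => by
      have := Submodule.finrank_mono h4
      omega)
    apply hvR
    rw [← h3, hWmem]
    exact ⟨hv, hX'⟩
  by_cases hWK : W = K
  swap
  · -- a flag `R < W < K`
    have h3 := Submodule.finrank_lt_finrank_of_lt (lt_of_le_of_ne hRW (Ne.symm hWR))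
    have hlt : W < K := lt_of_le_of_ne inf_le_left hWK
    have h4 := Submodule.finrank_lt_finrank_of_lt hlt
    exact VSec.of_flag hV hRinv hWinv hKinv hRW inf_le_left hr (by omega) hKd
  have hXKR : ∀ ξ, ∀ v ∈ K, D.X ξ v ∈ R := by
    intro ξ v hv
    rw [← hWK, hWmem] at hv
    exact hv.2 ξ
  -- all fields map `V` into `R`
  have hwK : D.w ζ ∉ K := fun h => hw (LinearMap.mem_ker.1 h)
  have hVK : ∀ v : V, ∃ (k : V) (t : ℝ), k ∈ K ∧ v = k + t • D.w ζ := by
    have h4 : K < K ⊔ Submodule.span ℝ {D.w ζ} := by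
      refine lt_of_le_of_ne le_sup_left fun h5 => hwK ?_
      rw [h5]
      exact Submodule.mem_sup_right (Submodule.mem_span_singleton_self _)
    have h5 := Submodule.finrank_lt_finrank_of_lt h4
    have h6 : K ⊔ Submodule.span ℝ {D.w ζ} = ⊤ := Submodule.eq_top_of_finrank_eq (by
      have := Submodule.finrank_le (K ⊔ Submodule.span ℝ {D.w ζ})
      omega)
    intro v
    have hv : v ∈ K ⊔ Submodule.span ℝ {D.w ζ} := by
      rw [h6]
      exact Submodule.mem_top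
    obtain ⟨y, hy, z, hz, rfl⟩ := Submodule.mem_sup.1 hv
    obtain ⟨t, rfl⟩ := Submodule.mem_span_singleton.1 hz
    exact ⟨y, t, hy, rfl⟩
  have hXV : ∀ ξ v, D.X ξ v ∈ R := by
    intro ξ v
    obtain ⟨k, t, hk, rfl⟩ := hVK v
    rw [map_add, map_smul, D.commw]
    exact R.add_mem (hXKR ξ k hk) (R.smul_mem _ ⟨_, rfl⟩)
  obtain ⟨ξ₂, hξ₂⟩ : ∃ ξ₂ : E, ξ₂ ∉ Submodule.span ℝ {ζ} := by
    by_contra h
    push Not at h
    have h3 : finrank ℝ (Submodule.span ℝ {ζ}) = finrank ℝ E := by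
      rw [(eq_top_iff.2 fun v _ => h v : Submodule.span ℝ {ζ} = ⊤), finrank_top]
    rw [finrank_span_singleton hζ] at h3
    omega
  have hEspan : ∀ ξ : E, ∃ s t : ℝ, ξ = s • ζ + t • ξ₂ := by
    have h4 : Submodule.span ℝ {ζ} < Submodule.span ℝ {ζ} ⊔ Submodule.span ℝ {ξ₂} := by
      refine lt_of_le_of_ne le_sup_left fun h5 => hξ₂ ?_
      rw [h5]
      exact Submodule.mem_sup_right (Submodule.mem_span_singleton_self _)
    have h5 := Submodule.finrank_lt_finrank_of_lt h4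
    rw [finrank_span_singleton hζ] at h5
    have h6 : Submodule.span ℝ {ζ} ⊔ Submodule.span ℝ {ξ₂} = ⊤ := Submodule.eq_top_of_finrank_eq (by
      have := Submodule.finrank_le (Submodule.span ℝ {ζ} ⊔ Submodule.span ℝ {ξ₂})
      omega)
    intro ξ
    have hv : ξ ∈ Submodule.span ℝ {ζ} ⊔ Submodule.span ℝ {ξ₂} := by
      rw [h6]
      exact Submodule.mem_top
    obtain ⟨y, hy, z, hz, rfl⟩ := Submodule.mem_sup.1 hv
    obtain ⟨t, rfl⟩ := Submodule.mem_span_singleton.1 hz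
    obtain ⟨s, rfl⟩ := Submodule.mem_span_singleton.1 hy
    exact ⟨s, t, rfl⟩
  -- the common kernel
  set K₀ : Submodule ℝ V := K ⊓ LinearMap.ker (D.X ξ₂) with hK₀
  have hK₀mem : ∀ v, v ∈ K₀ ↔ ∀ ξ, D.X ξ v = 0 := by
    intro v
    constructor
    · rintro ⟨h1, h2⟩ ξ
      obtain ⟨s, t, rfl⟩ := hEspan ξ
      rw [map_add, map_smul, map_smul, LinearMap.add_apply, LinearMap.smul_apply,
        LinearMap.smul_apply, LinearMap.mem_ker.1 h1, LinearMap.mem_ker.1 h2, smul_zero, smul_zero,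
        add_zero]
    · intro h
      exact ⟨LinearMap.mem_ker.2 (h ζ), LinearMap.mem_ker.2 (h ξ₂)⟩
  have hK₀inv : LInv D.a ⊤ K₀ := by
    intro g _ v hv
    rw [hK₀mem] at hv ⊢
    intro ξ
    rw [← D.ad_inv' g ξ, D.X_ad, hv, map_zero]
  have hRK₀ : R ≤ K₀ := by
    intro v hv
    rw [hK₀mem]
    exact fun ξ => hXR0 ξ v hv
  have hd2 : 2 ≤ finrank ℝ K₀ := by
    have h3 := LinearMap.finrank_range_add_finrank_ker (D.X ξ₂)
    have h4 : finrank ℝ (LinearMap.range (D.X ξ₂)) ≤ 1 := by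
      rw [← hr]
      refine Submodule.finrank_mono ?_
      rintro _ ⟨v, rfl⟩
      exact hXV ξ₂ v
    have h5 := Submodule.finrank_sup_add_finrank_inf_eq K (LinearMap.ker (D.X ξ₂))
    have h6 := Submodule.finrank_le (K ⊔ LinearMap.ker (D.X ξ₂))
    rw [← hK₀] at h5
    omega
  have hne : K₀ ≠ K := by
    intro h
    have h1 : D.X ζ (D.w ζ) ≠ 0 := hw
    have h2 : D.X ζ (D.w ζ) ∈ R := ⟨_, rfl⟩
    have h3 : R = Submodule.span ℝ {D.X ζ (D.w ζ)} := by
      refine (Submodule.eq_of_le_of_finrank_le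
        ((Submodule.span_singleton_le_iff_mem _ _).2 h2) ?_).symm
      rw [finrank_span_singleton h1]
      omega
    have h4 := hXV ξ₂ (D.w ζ)
    rw [h3] at h4
    obtain ⟨c, hc⟩ := Submodule.mem_span_singleton.1 h4
    apply hξ₂
    have h5 : D.X (ξ₂ - c • ζ) = 0 := by
      ext v
      obtain ⟨k, t, hk, rfl⟩ := hVK v
      have hk' : k ∈ K₀ := by
        rw [h]
        exact hk
      rw [map_add, ((hK₀mem k).1 hk') _, map_smul, map_sub, map_smul, LinearMap.sub_apply,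
        LinearMap.smul_apply, hc, sub_self, smul_zero, add_zero, LinearMap.zero_apply]
    have h6 := hX _ h5
    rw [sub_eq_zero] at h6
    rw [h6]
    exact Submodule.smul_mem _ _ (Submodule.mem_span_singleton_self _)
  have hlt : K₀ < K := lt_of_le_of_ne inf_le_left hne
  have h3 := Submodule.finrank_lt_finrank_of_lt hlt
  exact VSec.of_flag hV hRinv hK₀inv hKinv hRK₀ inf_le_left hr (by omega) hKd

end Pool.Agent.Helper14.K4
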