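import Pool.Agent.Helper14.K4.Gen
import Pool.Agent.Helper77.KT.Lat

/-!
# Theorem K4R, module LA3i: `dim E = 3`, the fields span a hyperplane
-/

set_option autoImplicit false

open Set Module
open scoped commutatorElement

namespace Pool.Agent.Helper14.K4

open Pool.Agent.Helper77.K4

section poly

theorem det_cubic (M₀ M₁ : Matrix (Fin 3) (Fin 3) ℝ) : ∃ a₀ a₁ a₂ a₃ : ℝ, ∀ t : ℝ,
    (M₀ + t • M₁).det = a₀ + a₁ * t + a₂ * t ^ 2 + a₃ * t ^ 3 := by
  refine ⟨M₀.det, ((M₀ + M₁).det - (M₀ - M₁).det) / 2 - M₁.det,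
    ((M₀ + M₁).det + (M₀ - M₁).det) / 2 - M₀.det, M₁.det, fun t => ?_⟩
  simp only [Matrix.det_fin_three, Matrix.add_apply, Matrix.sub_apply, Matrix.smul_apply,
    smul_eq_mul]
  ring

/-- A nonconstant cubic polynomial which is semi-invariant under affine maps has a common fixed
point of these maps. -/
theorem cubic_fix (a₀ a₁ a₂ a₃ : ℝ) (hne : a₁ ≠ 0 ∨ a₂ ≠ 0 ∨ a₃ ≠ 0) : ∃ t₀ : ℝ, ∀ c μ κ : ℝ,
    c ≠ 0 → (∀ t, a₀ + a₁ * (c * t + μ) + a₂ * (c * t + μ) ^ 2 + a₃ * (c * t + μ) ^ 3 =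
      κ * (a₀ + a₁ * t + a₂ * t ^ 2 + a₃ * t ^ 3)) → c * t₀ + μ = t₀ := by
  have coef : ∀ c μ κ : ℝ,
      (∀ t, a₀ + a₁ * (c * t + μ) + a₂ * (c * t + μ) ^ 2 + a₃ * (c * t + μ) ^ 3 =
      κ * (a₀ + a₁ * t + a₂ * t ^ 2 + a₃ * t ^ 3)) →
      a₃ * c ^ 3 = κ * a₃ ∧ a₂ * c ^ 2 + 3 * a₃ * c ^ 2 * μ = κ * a₂ ∧
      a₁ * c + 2 * a₂ * c * μ + 3 * a₃ * c * μ ^ 2 = κ * a₁ ∧
      a₀ + a₁ * μ + a₂ * μ ^ 2 + a₃ * μ ^ 3 = κ * a₀ := by
    intro c μ κ h
    have e0 := h 0
    have e1 := h 1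
    have e2 := h (-1)
    have e3 := h 2
    have c3 : a₃ * c ^ 3 = κ * a₃ := by
      linear_combination (e3 + 3 * e0 - 3 * e1 - e2) / 6
    refine ⟨c3, ?_, ?_, ?_⟩
    · linear_combination (e1 + e2) / 2 - e0
    · linear_combination (e1 - e2) / 2 - c3
    · linear_combination e0
  by_cases h3 : a₃ = 0
  · by_cases h2 : a₂ = 0
    · have h1 : a₁ ≠ 0 := by
        rcases hne with h | h | h
        · exact h
        · exact absurd h2 h
        · exact absurd h3 h
      refine ⟨-a₀ / a₁, fun c μ κ hc h => ?_⟩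
      obtain ⟨_, _, e1, e0⟩ := coef c μ κ h
      rw [h3, h2] at e0 e1
      have hκ : κ = c := by
        apply mul_right_cancel₀ h1
        linear_combination -e1
      rw [hκ] at e0
      field_simp
      linear_combination e0
    · refine ⟨-a₁ / (2 * a₂), fun c μ κ hc h => ?_⟩
      obtain ⟨_, e2, e1, _⟩ := coef c μ κ h
      rw [h3] at e1 e2
      have hκ : κ = c ^ 2 := by
        apply mul_right_cancel₀ h2
        linear_combination -e2
      rw [hκ] at e1
      have h4 : a₁ + 2 * a₂ * μ = c * a₁ := by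
        apply mul_left_cancel₀ hc
        linear_combination e1
      field_simp
      linear_combination h4
  · refine ⟨-a₂ / (3 * a₃), fun c μ κ hc h => ?_⟩
    obtain ⟨e3, e2, _, _⟩ := coef c μ κ h
    have hκ : κ = c ^ 3 := by
      apply mul_right_cancel₀ h3
      linear_combination -e3
    rw [hκ] at e2
    have h4 : a₂ + 3 * a₃ * μ = c * a₂ := by
      apply mul_left_cancel₀ (pow_ne_zero 2 hc)
      linear_combination e2
    field_simp
    linear_combination h4

end poly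

section

variable {V E G : Type*} [NormedAddCommGroup V] [NormedSpace ℝ V] [FiniteDimensional ℝ V]
    [NormedAddCommGroup E] [NormedSpace ℝ E] [FiniteDimensional ℝ E] [Group G]
  (D : LieData V E G)

theorem abs_det_ad (g : G) : |LinearMap.det (D.ad g : E →ₗ[ℝ] E)| = 1 := by
  have := D.discrete
  have := D.lattice
  refine Pool.Agent.Helper77.KT.abs_det_eq_one D.L (D.ad g) (D.L_ad g) fun l hl => ?_
  have h3 : (D.ad g).symm l = D.ad g⁻¹ l := by
    rw [LinearEquiv.symm_apply_eq, D.ad_inv']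
  rw [h3]
  exact D.L_ad _ l hl

/-- The subspace `I + w(E)` -/
def HH : Submodule ℝ V := D.I ⊔ LinearMap.range D.w

theorem X_mem_HH (ξ : E) (v : V) : D.X ξ v ∈ HH D := Submodule.mem_sup_left (D.X_mem_I ξ v)

theorem w_mem_HH (ξ : E) : D.w ξ ∈ HH D := Submodule.mem_sup_right ⟨ξ, rfl⟩

theorem linv_HH : LInv D.a ⊤ (HH D) := by
  intro g hg v hv
  have h1 : HH D ≤ (HH D).comap ((D.a g).linear : V →ₗ[ℝ] V) := by
    refine sup_le ?_ ?_
    · intro v hv
      exact Submodule.mem_sup_left (D.linv_I g hg v hv)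
    · rintro _ ⟨ξ, rfl⟩
      change (D.a g).linear (D.w ξ) ∈ HH D
      have h3 := D.w_ad g ξ
      rw [eq_sub_iff_add_eq] at h3
      rw [← h3]
      exact (HH D).add_mem (w_mem_HH D _) (X_mem_HH D _ _)
  exact h1 hv

/-- Case a): the fields vanish on the hyperplane. -/
theorem good_three_a (hV : finrank ℝ V = 4) (hE : finrank ℝ E = 3)
    (hH : finrank ℝ (HH D) = 3) (h0 : ∀ ξ, ∀ h ∈ HH D, D.X ξ h = 0) : D.Good := by
  classical
  set H := HH D with hHdef
  have hHinv : LInv D.a ⊤ H := linv_HH D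
  have hXH : ∀ ξ v, D.X ξ v ∈ H := X_mem_HH D
  have hwH : ∀ ξ, D.w ξ ∈ H := w_mem_HH D
  obtain ⟨e, he⟩ : ∃ e : V, e ∉ H := by
    by_contra h
    push Not at h
    have h3 : H = ⊤ := eq_top_iff.2 fun v _ => h v
    rw [h3, finrank_top] at hH
    omega
  -- the functional with kernel `H`
  obtain ⟨s, hse, hsH⟩ : ∃ s : V →ₗ[ℝ] ℝ, s e = 1 ∧ ∀ v, s v = 0 ↔ v ∈ H := by
    obtain ⟨f, hfe, hfH⟩ := Submodule.exists_le_ker_of_notMem he
    have hker : LinearMap.ker f = H := by
      refine (Submodule.eq_of_le_of_finrank_le hfH ?_).symm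
      have h3 := LinearMap.finrank_range_add_finrank_ker f
      have h4 : 0 < finrank ℝ (LinearMap.range f) := by
        refine Nat.pos_of_ne_zero fun h5 => hfe ?_
        have h6 : f e ∈ LinearMap.range f := ⟨e, rfl⟩
        rw [Submodule.finrank_eq_zero.1 h5] at h6
        exact (Submodule.mem_bot ℝ).1 h6
      omega
    refine ⟨(f e)⁻¹ • f, ?_, fun v => ?_⟩
    · rw [LinearMap.smul_apply, smul_eq_mul, inv_mul_cancel₀ hfe]
    · rw [LinearMap.smul_apply, smul_eq_mul, mul_eq_zero, or_iff_right (inv_ne_zero hfe), ← hker,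
        LinearMap.mem_ker]
  have hXs : ∀ ξ v, D.X ξ v = s v • D.X ξ e := by
    intro ξ v
    have h3 : v - s v • e ∈ H := by
      rw [← hsH, map_sub, map_smul, hse, smul_eq_mul, mul_one, sub_self]
    have h4 := h0 ξ _ h3
    rwa [map_sub, map_smul, sub_eq_zero] at h4
  -- the values of the fields
  set N : E →ₗ[ℝ] H := (D.X.flip e).codRestrict H (fun ξ => hXH ξ e) with hN
  set w' : E →ₗ[ℝ] H := D.w.codRestrict H hwH with hw'
  let bE : Module.Basis (Fin 3) ℝ E := Module.finBasisOfFinrankEq ℝ E hE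
  let bH : Module.Basis (Fin 3) ℝ H := Module.finBasisOfFinrankEq ℝ H hH
  let φ : E ≃ₗ[ℝ] H := bE.equiv bH (Equiv.refl _)
  set K₀ : E →ₗ[ℝ] E := φ.symm.toLinearMap ∘ₗ w' with hK₀
  set K₁ : E →ₗ[ℝ] E := φ.symm.toLinearMap ∘ₗ N with hK₁
  obtain ⟨a₀, a₁, a₂, a₃, hp⟩ := det_cubic (LinearMap.toMatrix bE bE K₀) (LinearMap.toMatrix bE bE K₁)
  have hdet : ∀ t : ℝ, LinearMap.det (K₀ + t • K₁) = a₀ + a₁ * t + a₂ * t ^ 2 + a₃ * t ^ 3 := by
    intro t
    rw [← hp, ← LinearMap.det_toMatrix bE, map_add, map_smul]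
  have hK : ∀ x ξ, ((φ ((K₀ + s x • K₁) ξ) : H) : V) = D.X ξ x + D.w ξ := by
    intro x ξ
    rw [LinearMap.add_apply, LinearMap.smul_apply, map_add, map_smul, hK₀, hK₁,
      LinearMap.comp_apply, LinearMap.comp_apply]
    simp only [LinearEquiv.coe_coe, LinearEquiv.apply_symm_apply]
    rw [Submodule.coe_add, Submodule.coe_smul, hXs ξ x, add_comm]
    rfl
  have hinj : ∀ x, LinearMap.det (K₀ + s x • K₁) ≠ 0 ↔ ∀ ξ, D.X ξ x + D.w ξ = 0 → ξ = 0 := by
    intro x
    constructor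
    · intro h ξ hξ
      by_contra hne
      have h3 : LinearMap.ker (K₀ + s x • K₁) = ⊥ := by
        have h4 : IsUnit (K₀ + s x • K₁) := by
          rw [LinearMap.isUnit_iff_isUnit_det]
          exact isUnit_iff_ne_zero.2 h
        exact (LinearMap.isUnit_iff_ker_eq_bot _).1 h4
      apply hne
      rw [← Submodule.mem_bot ℝ, ← h3, LinearMap.mem_ker]
      apply φ.injective
      apply Subtype.ext
      rw [hK, hξ, map_zero, Submodule.coe_zero]
    · intro h
      have h3 : LinearMap.ker (K₀ + s x • K₁) = ⊥ := by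
        rw [LinearMap.ker_eq_bot']
        intro ξ hξ
        apply h
        rw [← hK, hξ, map_zero, Submodule.coe_zero]
      have h4 := (LinearMap.isUnit_iff_ker_eq_bot _).2 h3
      rw [LinearMap.isUnit_iff_isUnit_det] at h4
      exact h4.ne_zero
  -- the action on `H`
  have hres : ∀ g, ∀ v ∈ H, ((D.a g).linear : V →ₗ[ℝ] V) v ∈ H := fun g v hv =>
    hHinv g (Subgroup.mem_top _) v hv
  have hsg : ∀ g v, s ((D.a g).linear v) = s ((D.a g).linear e) * s v := by
    intro g v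
    have h3 : v - s v • e ∈ H := by
      rw [← hsH, map_sub, map_smul, hse, smul_eq_mul, mul_one, sub_self]
    have h4 := (hsH _).2 (hres g _ h3)
    have h5 : ((D.a g).linear : V →ₗ[ℝ] V) (v - s v • e) =
        (D.a g).linear v - s v • (D.a g).linear e := by
      rw [map_sub, map_smul]
      rfl
    rw [h5, map_sub, map_smul, smul_eq_mul, sub_eq_zero] at h4
    rw [h4, mul_comm]
  have hlam : ∀ g, s ((D.a g).linear e) ≠ 0 := by
    intro g h
    rw [hsH, hHinv.mem_iff (Subgroup.mem_top g)] at h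
    exact he h
  have hequiv : ∀ g x, LinearMap.det (K₀ + s (D.a g x) • K₁) *
      LinearMap.det (D.ad g : E →ₗ[ℝ] E) =
      LinearMap.det (((D.a g).linear : V →ₗ[ℝ] V).restrict (hres g)) *
        LinearMap.det (K₀ + s x • K₁) := by
    intro g x
    have h3 : (K₀ + s (D.a g x) • K₁) ∘ₗ (D.ad g : E →ₗ[ℝ] E) =
        (φ.symm.toLinearMap ∘ₗ ((((D.a g).linear : V →ₗ[ℝ] V).restrict (hres g)) ∘ₗ
          φ.symm.symm.toLinearMap)) ∘ₗ (K₀ + s x • K₁) := by
      ext ξ
      apply φ.injective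
      apply Subtype.ext
      rw [LinearMap.comp_apply, hK, LinearMap.comp_apply, LinearMap.comp_apply,
        LinearMap.comp_apply]
      simp only [LinearEquiv.coe_coe, LinearEquiv.apply_symm_apply, LinearEquiv.symm_symm]
      rw [LinearMap.coe_restrict_apply, hK]
      exact D.T_ad g x ξ
    have h4 := congrArg LinearMap.det h3
    rw [LinearMap.det_comp, LinearMap.det_comp, LinearMap.det_conj] at h4
    exact h4
  have hnc : ¬ (a₁ ≠ 0 ∨ a₂ ≠ 0 ∨ a₃ ≠ 0) := by
    intro hne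
    obtain ⟨t₀, ht₀⟩ := cubic_fix a₀ a₁ a₂ a₃ hne
    have htop := D.eq_top_of_coset (H := ⊤) inferInstance hHinv (x := t₀ • e) (by
      intro g _
      have h3 := ht₀ (s ((D.a g).linear e)) (s (D.a g 0))
        (LinearMap.det (((D.a g).linear : V →ₗ[ℝ] V).restrict (hres g)) /
          LinearMap.det (D.ad g : E →ₗ[ℝ] E)) (hlam g) (by
        intro t
        have h4 := hequiv g (t • e)
        have hd : LinearMap.det (D.ad g : E →ₗ[ℝ] E) ≠ 0 := by
          intro h5
          have h6 := abs_det_ad D g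
          rw [h5, abs_zero] at h6
          exact zero_ne_one h6
        have h5 : s (D.a g (t • e)) = s ((D.a g).linear e) * t + s (D.a g 0) := by
          rw [act_apply, map_add, hsg, map_smul, hse, smul_eq_mul, mul_one]
        rw [h5, hdet, map_smul, hse, smul_eq_mul, mul_one, hdet] at h4
        rw [div_mul_eq_mul_div, eq_div_iff hd]
        exact h4)
      rw [← hsH, map_sub, act_apply, map_add, hsg, map_smul, hse, smul_eq_mul, mul_one, h3,
        sub_self])
    rw [htop] at he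
    exact he Submodule.mem_top
  push Not at hnc
  obtain ⟨h1, h2, h3⟩ := hnc
  have hconst : ∀ t : ℝ, LinearMap.det (K₀ + t • K₁) = a₀ := by
    intro t
    rw [hdet, h1, h2, h3]
    ring
  have ha₀ : a₀ ≠ 0 := by
    rw [← hconst (s D.x₀)]
    exact (hinj D.x₀).2 D.free
  refine Or.inr ⟨⊤, inferInstance, Or.inr ⟨H, hHinv, hXH, hwH, by rw [hH, hE], ?_, ?_⟩⟩
  · intro x
    rw [← hinj, hconst]
    exact ha₀
  · intro g _ h
    have h4 := hequiv g 0
    rw [hconst, hconst, mul_comm a₀] at h4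
    rw [← mul_right_cancel₀ ha₀ h4]
    exact abs_det_ad D g

/-- Case b): the fields do not vanish on the hyperplane. -/
theorem good_three_b (hV : finrank ℝ V = 4)
    (hH : finrank ℝ (HH D) = 3) (h0 : ∃ ξ, ∃ h ∈ HH D, D.X ξ h ≠ 0) : VSec D.a ⊥ ⊤ := by
  classical
  set H := HH D with hHdef
  have hHinv := linv_HH D
  rw [← hHdef] at hHinv
  have hXH : ∀ ξ v, D.X ξ v ∈ H := X_mem_HH D
  have hwH : ∀ ξ, D.w ξ ∈ H := w_mem_HH D
  have hVH : VSec D.a H ⊤ := VSec.of_finrank hHinv LInv.top le_top (by rw [finrank_top]; omega)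
  -- the common kernel in `H`
  set F : Submodule ℝ V := H ⊓ ⨅ ξ, LinearMap.ker (D.X ξ) with hF
  have hFmem : ∀ v, v ∈ F ↔ v ∈ H ∧ ∀ ξ, D.X ξ v = 0 := by
    intro v
    rw [hF, Submodule.mem_inf, Submodule.mem_iInf]
    rfl
  have hFle : F ≤ H := inf_le_left
  have hFinv : LInv D.a ⊤ F := by
    intro g hg v hv
    rw [hFmem] at hv ⊢
    refine ⟨hHinv g hg v hv.1, fun ξ => ?_⟩
    rw [← D.ad_inv' g ξ, D.X_ad, hv.2, map_zero]
  have hFne : F ≠ ⊥ := by
    obtain ⟨v, hv, hv0, hX⟩ := exists_mod D (W := ⊥) (U := H) (fun ξ v _ => hXH ξ v) (by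
      rw [le_bot_iff]
      rintro h
      rw [h, finrank_bot] at hH
      omega)
    intro h
    apply hv0
    rw [← h, hFmem]
    exact ⟨hv, fun ξ => (Submodule.mem_bot ℝ).1 (hX ξ)⟩
  have hFH : F ≠ H := by
    intro h
    obtain ⟨ξ, v, hv, hne⟩ := h0
    rw [← h, hFmem] at hv
    exact hne (hv.2 ξ)
  have hFlt : F < H := lt_of_le_of_ne hFle hFH
  have hFd := Submodule.finrank_lt_finrank_of_lt hFlt
  have hFd0 : 0 < finrank ℝ F := Nat.pos_of_ne_zero fun h => hFne (Submodule.finrank_eq_zero.1 h)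
  -- a vector outside `H`
  obtain ⟨e, he⟩ : ∃ e : V, e ∉ H := by
    by_contra h
    push Not at h
    have h3 : H = ⊤ := eq_top_iff.2 fun v _ => h v
    rw [h3, finrank_top] at hH
    omega
  have hVe : ∀ v : V, ∃ (h : V) (t : ℝ), h ∈ H ∧ v = h + t • e := by
    have h4 : H < H ⊔ Submodule.span ℝ {e} := by
      refine lt_of_le_of_ne le_sup_left fun h5 => he ?_
      rw [h5]
      exact Submodule.mem_sup_right (Submodule.mem_span_singleton_self _)
    have h5 := Submodule.finrank_lt_finrank_of_lt h4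
    have h6 : H ⊔ Submodule.span ℝ {e} = ⊤ := Submodule.eq_top_of_finrank_eq (by
      have := Submodule.finrank_le (H ⊔ Submodule.span ℝ {e})
      omega)
    intro v
    have hv : v ∈ H ⊔ Submodule.span ℝ {e} := by
      rw [h6]
      exact Submodule.mem_top
    obtain ⟨y, hy, z, hz, rfl⟩ := Submodule.mem_sup.1 hv
    obtain ⟨t, rfl⟩ := Submodule.mem_span_singleton.1 hz
    exact ⟨y, t, hy, rfl⟩
  rcases (by omega : finrank ℝ F = 2 ∨ finrank ℝ F = 1) with hF2 | hF1
  · -- `dim F = 2`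
    by_cases hFV : VSec D.a ⊥ F
    · exact (hFV.trans hHinv (VSec.of_finrank hFinv hHinv hFle (by omega))).trans LInv.top hVH
    exfalso
    have hJle : D.J H ≤ F := D.J_le fun ξ v hv => X_mem_of_succ D hFle (fun ξ v _ => hXH ξ v)
      (fun ξ v hv => by
        rw [((hFmem v).1 hv).2 ξ]
        exact F.zero_mem) (by omega) ξ hv
    have hJF : D.J H = F := by
      by_contra h
      refine hFV (alpha LInv.bot (D.linv_J hHinv) hFinv bot_le hJle (by rw [finrank_bot]; omega)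
        ?_ h)
      intro h3
      obtain ⟨ξ, v, hv, hne⟩ := h0
      apply hne
      have h4 := D.X_mem_J ξ hv
      rw [h3] at h4
      exact (Submodule.mem_bot ℝ).1 h4
    obtain ⟨h₃, hh₃, hh₃F⟩ := SetLike.exists_of_lt hFlt
    have hHh : ∀ v ∈ H, ∃ (f : V) (t : ℝ), f ∈ F ∧ v = f + t • h₃ := by
      have h4 : F < F ⊔ Submodule.span ℝ {h₃} := by
        refine lt_of_le_of_ne le_sup_left fun h5 => hh₃F ?_
        rw [h5]
        exact Submodule.mem_sup_right (Submodule.mem_span_singleton_self _)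
      have h5 := Submodule.finrank_lt_finrank_of_lt h4
      have h6 : F ⊔ Submodule.span ℝ {h₃} = H := Submodule.eq_of_le_of_finrank_le
        (sup_le hFle ((Submodule.span_singleton_le_iff_mem _ _).2 hh₃)) (by omega)
      intro v hv
      rw [← h6] at hv
      obtain ⟨y, hy, z, hz, rfl⟩ := Submodule.mem_sup.1 hv
      obtain ⟨t, rfl⟩ := Submodule.mem_span_singleton.1 hz
      exact ⟨y, t, hy, rfl⟩
    have hXh : ∀ (ξ : E) (f : V) (t : ℝ), f ∈ F → D.X ξ (f + t • h₃) = t • D.X ξ h₃ := by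
      intro ξ f t hf
      rw [map_add, ((hFmem f).1 hf).2 ξ, zero_add, map_smul]
    -- the vectors `X ξ h₃` span `F`
    have hspan : ∀ v₀ : V, ¬ ∀ ξ, D.X ξ h₃ ∈ Submodule.span ℝ {v₀} := by
      intro v₀ hv₀
      have h4 : F ≤ Submodule.span ℝ {v₀} := by
        rw [← hJF]
        refine D.J_le fun ξ v hv => ?_
        obtain ⟨f, t, hf, rfl⟩ := hHh v hv
        rw [hXh ξ f t hf]
        exact Submodule.smul_mem _ _ (hv₀ ξ)
      have h5 := Submodule.finrank_mono h4
      have h6 : finrank ℝ (Submodule.span ℝ {v₀}) ≤ 1 := by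
        by_cases h7 : v₀ = 0
        · rw [h7, Submodule.span_zero_singleton, finrank_bot]
          omega
        · rw [finrank_span_singleton h7]
      omega
    have hXe : ∀ ξ, D.X ξ e ∈ F := by
      intro ξ₀
      obtain ⟨f₀, t₀, hf₀, h4⟩ := hHh _ (hXH ξ₀ e)
      by_cases ht : t₀ = 0
      · rw [h4, ht, zero_smul, add_zero]
        exact hf₀
      exfalso
      apply hspan (D.X ξ₀ h₃)
      intro η
      obtain ⟨f₁, t₁, hf₁, h5⟩ := hHh _ (hXH η e)
      have h6 := D.comm η ξ₀ e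
      rw [h4, h5, hXh η f₀ t₀ hf₀, hXh ξ₀ f₁ t₁ hf₁] at h6
      rw [Submodule.mem_span_singleton]
      refine ⟨t₀⁻¹ * t₁, ?_⟩
      rw [mul_smul, ← h6, smul_smul, inv_mul_cancel₀ ht, one_smul]
    have hXF : ∀ ξ v, D.X ξ v ∈ F := by
      intro ξ v
      obtain ⟨h, t, hh, rfl⟩ := hVe v
      obtain ⟨f, t', hf, rfl⟩ := hHh h hh
      rw [map_add, hXh ξ f t' hf, map_smul]
      refine F.add_mem (F.smul_mem _ ?_) (F.smul_mem _ (hXe ξ))
      rw [← hJF]
      exact D.X_mem_J ξ hh₃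
    obtain ⟨ξ₁, hξ₁⟩ : ∃ ξ, D.w ξ ∉ F := by
      by_contra h
      push Not at h
      have h4 : H ≤ F := by
        rw [hHdef]
        refine sup_le (D.I_le hXF) ?_
        rintro _ ⟨ξ, rfl⟩
        exact h ξ
      exact absurd (le_antisymm hFle h4) hFH
    obtain ⟨f₁, t₁, hf₁, h4⟩ := hHh _ (hwH ξ₁)
    have ht₁ : t₁ ≠ 0 := by
      rintro rfl
      apply hξ₁
      rw [h4, zero_smul, add_zero]
      exact hf₁
    apply hspan (D.X ξ₁ h₃)
    intro ξ
    obtain ⟨f, t, hf, h5⟩ := hHh _ (hwH ξ)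
    rw [Submodule.mem_span_singleton]
    refine ⟨t / t₁, ?_⟩
    have h6 : D.w (ξ - (t / t₁) • ξ₁) ∈ F := by
      rw [map_sub, map_smul, h4, h5, smul_add, smul_smul, div_mul_cancel₀ _ ht₁,
        add_sub_add_right_eq_sub]
      exact F.sub_mem hf (F.smul_mem _ hf₁)
    have h7 := D.commw (ξ - (t / t₁) • ξ₁) ξ₁
    rw [((hFmem _).1 h6).2 ξ₁, h4, hXh _ f₁ t₁ hf₁] at h7
    have h8 := (smul_eq_zero.1 h7).resolve_left ht₁
    rw [map_sub, LinearMap.sub_apply, map_smul, LinearMap.smul_apply, sub_eq_zero] at h8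
    exact h8.symm
  · -- `dim F = 1`
    suffices h : VSec D.a F H from
      ((VSec.of_finrank LInv.bot hFinv bot_le (by rw [hF1, finrank_bot])).trans hHinv h).trans
        LInv.top hVH
    by_contra hno
    obtain ⟨β, hβF, hβ⟩ := Submodule.exists_mem_ne_zero_of_ne_bot hFne
    have hFβ : F = Submodule.span ℝ {β} := by
      refine (Submodule.eq_of_le_of_finrank_le
        ((Submodule.span_singleton_le_iff_mem _ _).2 hβF) ?_).symm
      rw [finrank_span_singleton hβ]
      omega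
    have hd : finrank ℝ H = finrank ℝ F + 2 := by omega
    have hXF : ∀ ξ, ∀ h ∈ H, D.X ξ h ∈ F := by
      set W : Submodule ℝ V := H ⊓ ⨅ ξ, F.comap (D.X ξ) with hW
      have hWmem : ∀ v, v ∈ W ↔ v ∈ H ∧ ∀ ξ, D.X ξ v ∈ F := by
        intro v
        rw [hW, Submodule.mem_inf, Submodule.mem_iInf]
        rfl
      have hWinv : LInv D.a ⊤ W := by
        intro g hg v hv
        rw [hWmem] at hv ⊢
        refine ⟨hHinv g hg v hv.1, fun ξ => ?_⟩
        rw [← D.ad_inv' g ξ, D.X_ad]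
        exact hFinv g hg _ (hv.2 _)
      have hFW : F ≤ W := by
        intro v hv
        rw [hWmem]
        refine ⟨hFle hv, fun ξ => ?_⟩
        rw [((hFmem v).1 hv).2 ξ]
        exact F.zero_mem
      have hWH : W = H := by
        by_contra h
        refine hno (alpha hFinv hWinv hHinv hFW inf_le_left hd ?_ h)
        intro h3
        obtain ⟨v, hv, hvF, hX⟩ := exists_mod D (W := F) (U := H) (fun ξ v _ => hXH ξ v)
          (fun h4 => hFH (le_antisymm hFle h4))
        apply hvF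
        rw [← h3, hWmem]
        exact ⟨hv, hX⟩
      intro ξ h hh
      rw [← hWH, hWmem] at hh
      exact hh.2 ξ
    have hX0 : ∀ ξ, ∀ l ∈ F, D.X ξ l = 0 := fun ξ l hl => ((hFmem l).1 hl).2 ξ
    have hIF : D.I ⊔ F = F ∨ D.I ⊔ F = H := by
      by_contra h
      push Not at h
      refine hno (alpha hFinv (D.linv_I.sup hFinv) hHinv le_sup_right ?_ hd h.1 h.2)
      exact sup_le (D.I_le hXH) hFle
    rcases hIF with hI | hI
    · -- `κ = w`
      have hIF : D.I ≤ F := le_sup_left.trans hI.le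
      refine hno (sec_beta D hFinv hHinv hFle hd hβ hFβ hXF hX0 D.w hwH ?_ (fun ξ η => ?_)
        (fun g => ⟨1, fun ξ => ?_⟩) h0)
      · intro h hh
        have h3 : h ∈ D.I ⊔ LinearMap.range D.w := hh
        obtain ⟨y, hy, z, ⟨ξ, rfl⟩, rfl⟩ := Submodule.mem_sup.1 h3
        refine ⟨ξ, ?_⟩
        rw [add_sub_cancel_right]
        exact hIF hy
      · exact D.commw η ξ
      · rw [one_smul, D.w_ad, sub_sub_cancel]
        exact hIF (D.X_mem_I _ _)
    · -- `κ ξ = X ξ e`
      refine hno (sec_beta D hFinv hHinv hFle hd hβ hFβ hXF hX0 (D.X.flip e) (fun ξ => hXH ξ e) ?_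
        (fun ξ η => ?_) (fun g => ?_) h0)
      · intro h hh
        have h3 : D.I ⊔ F ≤ LinearMap.range (D.X.flip e) ⊔ F := by
          refine sup_le (D.I_le fun ξ v => ?_) le_sup_right
          obtain ⟨h, t, hh, rfl⟩ := hVe v
          rw [map_add, map_smul]
          refine Submodule.add_mem _ (Submodule.mem_sup_right (hXF ξ h hh))
            (Submodule.smul_mem _ _ (Submodule.mem_sup_left ⟨ξ, rfl⟩))
        rw [← hI] at hh
        obtain ⟨y, ⟨ξ, rfl⟩, z, hz, rfl⟩ := Submodule.mem_sup.1 (h3 hh)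
        refine ⟨ξ, ?_⟩
        rw [add_sub_cancel_left]
        exact hz
      · exact D.comm η ξ e
      · obtain ⟨h, c, hh, hc⟩ := hVe ((D.a g).linear e)
        refine ⟨c, fun ξ => ?_⟩
        rw [LinearMap.flip_apply, LinearMap.flip_apply, ← D.X_ad, hc, map_add, map_smul,
          add_sub_cancel_right]
        exact hXF _ h hh

/-- LA3i -/
theorem good_three_i (hV : finrank ℝ V = 4) (hE : finrank ℝ E = 3)
    (hH : finrank ℝ (D.I ⊔ LinearMap.range D.w : Submodule ℝ V) = 3) : D.Good := by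
  by_cases h : ∀ ξ, ∀ h ∈ HH D, D.X ξ h = 0
  · exact good_three_a D hV hE hH h
  · push Not at h
    exact Or.inl (good_three_b D hV hH h)

end

end Pool.Agent.Helper14.K4
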